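import Mathlib

set_option autoImplicit false

namespace Pool.Agent.H203R3.BH

open scoped InnerProductSpace
universe u

variable (H : Type u) [NormedAddCommGroup H] [InnerProductSpace ℂ H]

/-- the left ideal of finite rank operators -/
def finRank : Ideal (H →L[ℂ] H) where
  carrier := {b | FiniteDimensional ℂ (LinearMap.range (b : H →ₗ[ℂ] H))}
  zero_mem' := by
    show FiniteDimensional ℂ (LinearMap.range ((0 : H →L[ℂ] H) : H →ₗ[ℂ] H))
    rw [ContinuousLinearMap.coe_zero, LinearMap.range_zero]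
    infer_instance
  add_mem' := by
    intro a b ha hb
    have ha' : FiniteDimensional ℂ (LinearMap.range (a : H →ₗ[ℂ] H)) := ha
    have hb' : FiniteDimensional ℂ (LinearMap.range (b : H →ₗ[ℂ] H)) := hb
    show FiniteDimensional ℂ (LinearMap.range ((a + b : H →L[ℂ] H) : H →ₗ[ℂ] H))
    refine Submodule.finiteDimensional_of_le
      (S₂ := LinearMap.range (a : H →ₗ[ℂ] H) ⊔ LinearMap.range (b : H →ₗ[ℂ] H)) ?_
    rintro _ ⟨x, rfl⟩
    exact Submodule.add_mem_sup ⟨x, rfl⟩ ⟨x, rfl⟩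
  smul_mem' := by
    intro c b hb
    have hb' : FiniteDimensional ℂ (LinearMap.range (b : H →ₗ[ℂ] H)) := hb
    show FiniteDimensional ℂ (LinearMap.range ((c * b : H →L[ℂ] H) : H →ₗ[ℂ] H))
    have h1 : LinearMap.range ((c * b : H →L[ℂ] H) : H →ₗ[ℂ] H) =
        (LinearMap.range (b : H →ₗ[ℂ] H)).map (c : H →ₗ[ℂ] H) := by
      ext y
      constructor
      · rintro ⟨x, rfl⟩
        exact ⟨b x, ⟨x, rfl⟩, rfl⟩
      · rintro ⟨_, ⟨x, rfl⟩, rfl⟩
        exact ⟨x, rfl⟩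
    rw [h1]
    infer_instance

lemma mem_finRank (b : H →L[ℂ] H) :
    b ∈ finRank H ↔ FiniteDimensional ℂ (LinearMap.range (b : H →ₗ[ℂ] H)) := Iff.rfl

lemma finRank_ne_top (hH : ¬ FiniteDimensional ℂ H) : finRank H ≠ ⊤ := by
  intro h
  have h1 : (1 : H →L[ℂ] H) ∈ finRank H := by rw [h]; trivial
  rw [mem_finRank] at h1
  apply hH
  have h2 : LinearMap.range ((1 : H →L[ℂ] H) : H →ₗ[ℂ] H) = ⊤ := by
    ext x
    exact ⟨fun _ => trivial, fun _ => ⟨x, rfl⟩⟩
  rw [h2] at h1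
  exact Module.finite_def.mpr ((Submodule.fg_top _).mp (Module.finite_def.mp h1))

/-- the rank one operator `x ↦ ⟪f, x⟫ e` -/
noncomputable def rk (e f : H) : H →L[ℂ] H := (innerSL ℂ f).smulRight e

variable {H}

@[simp] lemma rk_apply (e f x : H) : rk H e f x = ⟪f, x⟫_ℂ • e := rfl

lemma rk_mem (e f : H) : rk H e f ∈ finRank H := by
  rw [mem_finRank]
  refine Submodule.finiteDimensional_of_le (S₂ := Submodule.span ℂ {e}) ?_
  rintro _ ⟨x, rfl⟩
  exact Submodule.mem_span_singleton.mpr ⟨_, rfl⟩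

lemma rk_mul [CompleteSpace H] (e f : H) (p : H →L[ℂ] H) :
    rk H e f * p = rk H e (ContinuousLinearMap.adjoint p f) := by
  ext x
  show ⟪f, p x⟫_ℂ • e = ⟪ContinuousLinearMap.adjoint p f, x⟫_ℂ • e
  rw [ContinuousLinearMap.adjoint_inner_left]

lemma rk_adjoint [CompleteSpace H] (e f : H) :
    ContinuousLinearMap.adjoint (rk H e f) = rk H f e := by
  symm
  rw [ContinuousLinearMap.eq_adjoint_iff]
  intro x y
  rw [rk_apply, rk_apply, inner_smul_left, inner_smul_right, inner_conj_symm]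
  ring

/-- if `I` is a proper left ideal, then finitely many members of `I` cannot be jointly bounded
below -/
theorem exists_small [CompleteSpace H] [Nontrivial H] (I : Ideal (H →L[ℂ] H)) (hI : I ≠ ⊤)
    (s : Finset (H →L[ℂ] H)) (hs : ∀ T ∈ s, T ∈ I) (ε : ℝ) (hε : 0 < ε) :
    ∃ y : H, ‖y‖ = 1 ∧ ∀ T ∈ s, ‖T y‖ ≤ ε := by
  by_contra hcon
  push Not at hcon
  apply hI
  let S : H →L[ℂ] H := ∑ T ∈ s, ContinuousLinearMap.adjoint T * T
  have hS : S ∈ I := Ideal.sum_mem _ fun T hT => I.mul_mem_left _ (hs T hT)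
  have hSx : ∀ x, ⟪S x, x⟫_ℂ = ((∑ T ∈ s, ‖T x‖ ^ 2 : ℝ) : ℂ) := by
    intro x
    rw [ContinuousLinearMap.sum_apply, sum_inner, Complex.ofReal_sum]
    refine Finset.sum_congr rfl fun T _ => ?_
    show ⟪ContinuousLinearMap.adjoint T (T x), x⟫_ℂ = _
    rw [ContinuousLinearMap.adjoint_inner_left, inner_self_eq_norm_sq_to_K]
    simp
  have h1 : ∀ x : H, ‖x‖ ^ 2 * ((⟨ε ^ 2, by positivity⟩ : NNReal) : ℝ) ≤ ‖⟪S x, x⟫_ℂ‖ := by
    intro x
    rw [hSx, Complex.norm_real, Real.norm_of_nonneg (Finset.sum_nonneg fun _ _ => by positivity)]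
    by_cases hx : x = 0
    · subst hx
      simp
    · have hx' : ‖x‖ ≠ 0 := norm_ne_zero_iff.mpr hx
      have hx0 : 0 < ‖x‖ := norm_pos_iff.mpr hx
      obtain ⟨T, hT, h2⟩ := hcon (((‖x‖⁻¹ : ℝ) : ℂ) • x) (by
        rw [norm_smul, Complex.norm_real, norm_inv, norm_norm, inv_mul_cancel₀ hx'])
      rw [map_smul, norm_smul, Complex.norm_real, norm_inv, norm_norm] at h2
      have h3 : ε * ‖x‖ ≤ ‖T x‖ := by
        rw [inv_mul_eq_div, lt_div_iff₀ hx0] at h2
        exact h2.le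
      calc ‖x‖ ^ 2 * ε ^ 2 = (ε * ‖x‖) ^ 2 := by ring
        _ ≤ ‖T x‖ ^ 2 := by gcongr
        _ ≤ ∑ T ∈ s, ‖T x‖ ^ 2 :=
            Finset.single_le_sum (f := fun T : H →L[ℂ] H => ‖T x‖ ^ 2)
              (fun _ _ => by positivity) hT
  have h2 : IsUnit S := ContinuousLinearMap.isUnit_of_forall_le_norm_inner_map S
    (c := ⟨ε ^ 2, by positivity⟩) (by
      show (0:ℝ) < ε ^ 2
      positivity) h1
  exact I.eq_top_of_isUnit_mem hS h2

end Pool.Agent.H203R3.BH
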