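import Mathlib
import Pool.Agent.H203R3.BH.Idl

set_option autoImplicit false

namespace Pool.Agent.H203R3.BH

open scoped InnerProductSpace
universe u

/-- an almost disjoint family of infinite sets indexed by `ℕ → Bool` -/
def adSet (f : ℕ → Bool) : Set ℕ :=
  Set.range (fun n : ℕ => Encodable.encode (List.ofFn (fun i : Fin n => f i)))

lemma adSet_infinite (f : ℕ → Bool) : (adSet f).Infinite := by
  apply Set.infinite_range_of_injective
  intro n m h
  have h1 : List.ofFn (fun i : Fin n => f i) = List.ofFn (fun i : Fin m => f i) :=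
    Encodable.encode_injective h
  have h2 := congrArg List.length h1
  simpa using h2

lemma adSet_inter (f g : ℕ → Bool) (h : f ≠ g) : (adSet f ∩ adSet g).Finite := by
  obtain ⟨m, hm⟩ : ∃ m, f m ≠ g m := by
    by_contra hcon
    push Not at hcon
    exact h (funext hcon)
  refine Set.Finite.subset (Set.Finite.image
    (fun n : ℕ => Encodable.encode (List.ofFn (fun i : Fin n => f i))) (Set.finite_Iic m)) ?_
  rintro _ ⟨⟨n, rfl⟩, ⟨n', h'⟩⟩
  refine ⟨n, ?_, rfl⟩
  have h1 : List.ofFn (fun i : Fin n' => g i) = List.ofFn (fun i : Fin n => f i) :=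
    Encodable.encode_injective h'
  have h2 := congrArg List.length h1
  simp only [List.length_ofFn] at h2
  subst h2
  by_contra h3
  simp only [Set.mem_Iic, not_le] at h3
  have h4 := List.ofFn_injective h1
  exact hm (congrFun h4 ⟨m, h3⟩).symm

lemma not_countable_cantor : ¬ Countable (ℕ → Bool) := by
  intro h
  obtain ⟨f, hf⟩ := exists_surjective_nat (ℕ → Bool)
  obtain ⟨n, hn⟩ := hf (fun n => !(f n n))
  have h1 := congrFun hn n
  simp at h1

section

variable {H : Type u} [NormedAddCommGroup H] [InnerProductSpace ℂ H] [CompleteSpace H]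

/-- the closed span of `e i`, `i ∈ R` -/
noncomputable def cs (e : ℕ → H) (R : Set ℕ) : Submodule ℂ H :=
  (Submodule.span ℂ (e '' R)).topologicalClosure

lemma cs_complete (e : ℕ → H) (R : Set ℕ) : CompleteSpace (cs e R) :=
  (Submodule.isClosed_topologicalClosure _).completeSpace_coe

lemma cs_proj (e : ℕ → H) (R : Set ℕ) : (cs e R).HasOrthogonalProjection :=
  have := cs_complete e R
  inferInstance

/-- the projection onto the closed span of `e i`, `i ∈ R` -/
noncomputable def pr (e : ℕ → H) (R : Set ℕ) : H →L[ℂ] H :=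
  have := cs_proj e R
  (cs e R).starProjection

lemma pr_adjoint (e : ℕ → H) (R : Set ℕ) :
    ContinuousLinearMap.adjoint (pr e R) = pr e R := by
  have := cs_proj e R
  have h1 : IsSelfAdjoint (cs e R).starProjection := isSelfAdjoint_starProjection _
  rw [← ContinuousLinearMap.star_eq_adjoint]
  exact h1

lemma pr_mul_self (e : ℕ → H) (R : Set ℕ) : pr e R * pr e R = pr e R := by
  have := cs_proj e R
  exact Submodule.isIdempotentElem_starProjection (cs e R)

lemma pr_of_mem_cs (e : ℕ → H) (R : Set ℕ) (x : H) (hx : x ∈ cs e R) : pr e R x = x := by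
  have := cs_proj e R
  exact Submodule.starProjection_eq_self_iff.mpr hx

lemma pr_mem_cs (e : ℕ → H) (R : Set ℕ) (x : H) : pr e R x ∈ cs e R := by
  have := cs_proj e R
  exact Submodule.starProjection_apply_mem _ _

lemma mem_cs (e : ℕ → H) (R : Set ℕ) (i : ℕ) (hi : i ∈ R) : e i ∈ cs e R :=
  Submodule.le_topologicalClosure _ (Submodule.subset_span ⟨i, hi, rfl⟩)

lemma pr_of_mem (e : ℕ → H) (R : Set ℕ) (i : ℕ) (hi : i ∈ R) : pr e R (e i) = e i :=
  pr_of_mem_cs e R _ (mem_cs e R i hi)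

lemma pr_of_notMem (e : ℕ → H) (he : Orthonormal ℂ e) (R : Set ℕ) (i : ℕ) (hi : i ∉ R) :
    pr e R (e i) = 0 := by
  have := cs_proj e R
  have h1 : e i ∈ (cs e R)ᗮ := by
    rw [Submodule.mem_orthogonal]
    intro y hy
    have h3 : ⟪e i, y⟫_ℂ = 0 := by
      have h4 : IsClosed {z : H | ⟪e i, z⟫_ℂ = 0} :=
        isClosed_eq (continuous_const.inner continuous_id) continuous_const
      have h5 : ((Submodule.span ℂ (e '' R) : Submodule ℂ H) : Set H) ⊆
          {z : H | ⟪e i, z⟫_ℂ = 0} := by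
        intro z hz
        refine Submodule.span_induction (p := fun z _ => ⟪e i, z⟫_ℂ = 0) ?_ ?_ ?_ ?_ hz
        · rintro _ ⟨j, hj, rfl⟩
          exact he.2 (fun h => hi (h ▸ hj))
        · exact inner_zero_right _
        · intro a b _ _ ha hb
          rw [inner_add_right, ha, hb, add_zero]
        · intro a b _ hb
          rw [inner_smul_right, hb, mul_zero]
      exact closure_minimal h5 h4 hy
    rw [← inner_conj_symm, h3, map_zero]
  exact (Submodule.starProjection_apply_eq_zero_iff _).mpr h1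

lemma pr_cs_mem (e : ℕ → H) (he : Orthonormal ℂ e) (R R' : Set ℕ) (F : Submodule ℂ H)
    (hF : IsClosed (F : Set H)) (hF2 : ∀ i ∈ R ∩ R', e i ∈ F) (y : H) (hy : y ∈ cs e R') :
    pr e R y ∈ F := by
  have h4 : IsClosed {z : H | pr e R z ∈ F} := hF.preimage (pr e R).continuous
  have h5 : ((Submodule.span ℂ (e '' R') : Submodule ℂ H) : Set H) ⊆ {z : H | pr e R z ∈ F} := by
    intro z hz
    refine Submodule.span_induction (p := fun z _ => pr e R z ∈ F) ?_ ?_ ?_ ?_ hz
    · rintro _ ⟨j, hj, rfl⟩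
      by_cases hj' : j ∈ R
      · rw [pr_of_mem e R j hj']
        exact hF2 j ⟨hj', hj⟩
      · rw [pr_of_notMem e he R j hj']
        exact F.zero_mem
    · rw [map_zero]
      exact F.zero_mem
    · intro a b _ _ ha hb
      rw [map_add]
      exact F.add_mem ha hb
    · intro a b _ hb
      rw [map_smul]
      exact F.smul_mem a hb
  exact closure_minimal h5 h4 hy

lemma mem_finRank_of (b : H →L[ℂ] H) (F : Submodule ℂ H) (hF : FiniteDimensional ℂ F)
    (h : ∀ x, b x ∈ F) : b ∈ finRank H := by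
  rw [mem_finRank]
  refine Submodule.finiteDimensional_of_le (S₂ := F) ?_
  rintro _ ⟨x, rfl⟩
  exact h x

lemma pr_mul_mem (e : ℕ → H) (he : Orthonormal ℂ e) (R R' : Set ℕ) (h : (R ∩ R').Finite) :
    pr e R * pr e R' ∈ finRank H := by
  have hF : FiniteDimensional ℂ (Submodule.span ℂ (e '' (R ∩ R'))) :=
    FiniteDimensional.span_of_finite ℂ (h.image e)
  refine mem_finRank_of _ (Submodule.span ℂ (e '' (R ∩ R'))) hF fun x => ?_
  have h1 : IsClosed ((Submodule.span ℂ (e '' (R ∩ R')) : Submodule ℂ H) : Set H) :=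
    Submodule.closed_of_finiteDimensional _
  have h2 : ∀ i ∈ R ∩ R', e i ∈ Submodule.span ℂ (e '' (R ∩ R')) :=
    fun i hi => Submodule.subset_span ⟨i, hi, rfl⟩
  rw [ContinuousLinearMap.mul_apply]
  exact pr_cs_mem e he R R' _ h1 h2 _ (pr_mem_cs e R' x)

theorem exists_infinite_proj (I : Ideal (H →L[ℂ] H)) (hfr : finRank H ≤ I) {K : Type u}
    [NormedAddCommGroup K] [InnerProductSpace ℂ K] [CompleteSpace K]
    (ρ : (H →L[ℂ] H) →⋆ₐ[ℂ] (K →L[ℂ] K)) (ξ : K) (hI : ∀ b, b ∈ I ↔ ρ b ξ = 0) (e : ℕ → H)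
    (he : Orthonormal ℂ e) :
    ∃ R : Set ℕ, R.Infinite ∧ pr e R ∈ I := by
  classical
  by_contra hcon
  push Not at hcon
  have h1 : ∀ f, pr e (adSet f) ∉ I := fun f => hcon _ (adSet_infinite f)
  have h2 : ∀ f, ρ (pr e (adSet f)) ξ ≠ 0 := fun f hf => h1 f ((hI _).mpr hf)
  have h3 : ∀ f g, ⟪ρ (pr e (adSet f)) ξ, ρ (pr e (adSet g)) ξ⟫_ℂ =
      ⟪ξ, ρ (pr e (adSet f) * pr e (adSet g)) ξ⟫_ℂ := by
    intro f g
    have h4 : ρ (pr e (adSet f)) = ContinuousLinearMap.adjoint (ρ (pr e (adSet f))) := by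
      rw [← ContinuousLinearMap.star_eq_adjoint, ← map_star, ContinuousLinearMap.star_eq_adjoint,
        pr_adjoint]
    rw [map_mul]
    conv_lhs => rw [h4]
    rw [ContinuousLinearMap.adjoint_inner_left]
    rfl
  have h4 : ∀ f g, f ≠ g → ⟪ρ (pr e (adSet f)) ξ, ρ (pr e (adSet g)) ξ⟫_ℂ = 0 := by
    intro f g hfg
    rw [h3, (hI _).mp (hfr (pr_mul_mem e he _ _ (adSet_inter f g hfg))), inner_zero_right]
  have h5 : ∀ f, ⟪ρ (pr e (adSet f)) ξ, ξ⟫_ℂ = ((‖ρ (pr e (adSet f)) ξ‖ ^ 2 : ℝ) : ℂ) := by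
    intro f
    have h6 := h3 f f
    rw [pr_mul_self, inner_self_eq_norm_sq_to_K] at h6
    rw [← inner_conj_symm, ← h6]
    simp
  let w : (ℕ → Bool) → K := fun f =>
    (((‖ρ (pr e (adSet f)) ξ‖⁻¹ : ℝ)) : ℂ) • ρ (pr e (adSet f)) ξ
  have hw : Orthonormal ℂ w := by
    constructor
    · intro f
      have h6 := norm_ne_zero_iff.mpr (h2 f)
      show ‖(((‖ρ (pr e (adSet f)) ξ‖⁻¹ : ℝ)) : ℂ) • ρ (pr e (adSet f)) ξ‖ = 1
      rw [norm_smul, Complex.norm_real, norm_inv, norm_norm, inv_mul_cancel₀ h6]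
    · intro f g hfg
      show ⟪(((‖ρ (pr e (adSet f)) ξ‖⁻¹ : ℝ)) : ℂ) • ρ (pr e (adSet f)) ξ,
        (((‖ρ (pr e (adSet g)) ξ‖⁻¹ : ℝ)) : ℂ) • ρ (pr e (adSet g)) ξ⟫_ℂ = 0
      rw [inner_smul_left, inner_smul_right, h4 f g hfg, mul_zero, mul_zero]
  have h6 := (Orthonormal.inner_products_summable (x := ξ) hw).countable_support
  have h7 : Function.support (fun f => ‖⟪w f, ξ⟫_ℂ‖ ^ 2) = Set.univ := by
    ext f
    simp only [Function.mem_support, Set.mem_univ, iff_true]
    have h8 := norm_ne_zero_iff.mpr (h2 f)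
    have h9 : ⟪w f, ξ⟫_ℂ = ((‖ρ (pr e (adSet f)) ξ‖ : ℝ) : ℂ) := by
      show ⟪(((‖ρ (pr e (adSet f)) ξ‖⁻¹ : ℝ)) : ℂ) • ρ (pr e (adSet f)) ξ, ξ⟫_ℂ = _
      rw [inner_smul_left, h5, Complex.conj_ofReal, ← Complex.ofReal_mul]
      congr 1
      field_simp
    rw [h9, Complex.norm_real, norm_norm]
    positivity
  rw [h7, Set.countable_univ_iff] at h6
  exact not_countable_cantor h6

end

end Pool.Agent.H203R3.BH
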