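import Mathlib

set_option autoImplicit false

namespace Pool.Agent.H203R3.BH

open scoped InnerProductSpace

/-- pigeonhole in a finite-dimensional space -/
theorem pigeon {E : Type*} [NormedAddCommGroup E] [NormedSpace ℂ E] [FiniteDimensional ℂ E]
    (S : Set ℕ) (hS : S.Infinite) (p : ℕ → E) (C : ℝ) (hp : ∀ i ∈ S, ‖p i‖ ≤ C) (η : ℝ)
    (hη : 0 < η) : ∃ j ∈ S, ∃ i ∈ S, j < i ∧ ‖p i - p j‖ ≤ η := by
  have : ProperSpace E := FiniteDimensional.proper ℂ E
  have h1 : TotallyBounded (Metric.closedBall (0:E) C) := (isCompact_closedBall _ _).totallyBounded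
  obtain ⟨t, ht, hcov⟩ := Metric.totallyBounded_iff.mp h1 (η/2) (by positivity)
  have h2 : ∀ i, ∃ y, i ∈ S → y ∈ t ∧ dist (p i) y < η / 2 := by
    intro i
    by_cases hi : i ∈ S
    · have := hcov (mem_closedBall_zero_iff.mpr (hp i hi))
      simp only [Set.mem_iUnion, Metric.mem_ball] at this
      obtain ⟨y, hy, h⟩ := this
      exact ⟨y, fun _ => ⟨hy, h⟩⟩
    · exact ⟨0, fun h => absurd h hi⟩
  choose y hy using h2
  obtain ⟨j, hj, i, hi, hji, h3⟩ :=
    hS.exists_lt_map_eq_of_mapsTo (f := y) (t := t) (fun i hi => (hy i hi).1) ht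
  refine ⟨j, hj, i, hi, hji, ?_⟩
  rw [← dist_eq_norm]
  have h4 := (hy i hi).2
  have h5 := (hy j hj).2
  rw [h3] at h5
  rw [dist_comm] at h5
  calc dist (p i) (p j) ≤ dist (p i) (y i) + dist (y i) (p j) := dist_triangle _ _ _
    _ ≤ η/2 + η/2 := by linarith
    _ = η := by ring

theorem exists_contraction {H : Type*} [NormedAddCommGroup H] [InnerProductSpace ℂ H] (K : ℕ)
    (x : ℕ → Fin K → H) (C : ℝ) (hC : 0 ≤ C) (hx : ∀ i k, ‖x i k‖ ≤ C) (S : Set ℕ) (hS : S.Infinite)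
    (η : ℝ) (hη : 0 < η) :
    ∃ j ∈ S, ∃ i ∈ S, j < i ∧ ∃ G : H →L[ℂ] H, ‖G‖ ≤ 1 ∧ ∀ k, ‖G (x i k) - x j k‖ ≤ η := by
  classical
  let W : ℕ → Submodule ℂ H := fun i => Submodule.span ℂ (Set.range (x i))
  have hfd : ∀ i, FiniteDimensional ℂ (W i) := fun i =>
    FiniteDimensional.span_of_finite ℂ (Set.finite_range _)
  have hmem : ∀ i k, x i k ∈ W i := fun i k => Submodule.subset_span ⟨k, rfl⟩
  obtain ⟨d, hd⟩ : ∃ d, {i ∈ S | Module.finrank ℂ (W i) = d}.Infinite := by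
    by_contra hcon
    push Not at hcon
    apply hS
    have h1 : S ⊆ ⋃ d ∈ Finset.range (K+1), {i ∈ S | Module.finrank ℂ (W i) = d} := by
      intro i hi
      simp only [Set.mem_iUnion, Finset.mem_range, Set.mem_ofPred_eq]
      refine ⟨Module.finrank ℂ (W i), ?_, hi, rfl⟩
      have := finrank_range_le_card (R := ℂ) (x i)
      rw [Fintype.card_fin] at this
      have h2 : Module.finrank ℂ (W i) ≤ K := this
      omega
    refine Set.Finite.subset (Set.Finite.biUnion (Finset.finite_toSet _) fun d _ => ?_) h1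
    exact hcon d
  have h1 : ∀ i, ∃ p : Fin K → EuclideanSpace ℂ (Fin d), i ∈ {i ∈ S | Module.finrank ℂ (W i) = d} →
      ∃ e : W i ≃ₗᵢ[ℂ] EuclideanSpace ℂ (Fin d), ∀ k, p k = e ⟨x i k, hmem i k⟩ := by
    intro i
    by_cases hi : i ∈ {i ∈ S | Module.finrank ℂ (W i) = d}
    · let e : W i ≃ₗᵢ[ℂ] EuclideanSpace ℂ (Fin d) :=
        ((stdOrthonormalBasis ℂ (W i)).reindex (finCongr hi.2)).repr
      exact ⟨fun k => e ⟨x i k, hmem i k⟩, fun _ => ⟨e, fun k => rfl⟩⟩
    · exact ⟨fun _ => 0, fun h => absurd h hi⟩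
  choose p hp using h1
  obtain ⟨j, hj, i, hi, hji, h2⟩ := pigeon _ hd p C (by
    intro i hi
    obtain ⟨e, he⟩ := hp i hi
    rw [pi_norm_le_iff_of_nonneg hC]
    intro k
    rw [he k, LinearIsometryEquiv.norm_map]
    exact hx i k) η hη
  obtain ⟨ei, hei⟩ := hp i hi
  obtain ⟨ej, hej⟩ := hp j hj
  have : (W i).HasOrthogonalProjection := inferInstance
  let G : H →L[ℂ] H := (W j).subtypeL.comp (((ei.trans ej.symm).toLinearIsometry.toContinuousLinearMap).comp
    (W i).orthogonalProjectionOnto)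
  have hG : ∀ v, G v = ((ej.symm (ei ((W i).orthogonalProjectionOnto v)) : W j) : H) := fun v => rfl
  refine ⟨j, hj.1, i, hi.1, hji, G, ?_, ?_⟩
  · refine ContinuousLinearMap.opNorm_le_bound _ zero_le_one fun v => ?_
    rw [hG]
    change ‖ej.symm (ei ((W i).orthogonalProjectionOnto v))‖ ≤ _
    rw [LinearIsometryEquiv.norm_map, LinearIsometryEquiv.norm_map]
    exact ((W i).orthogonalProjectionOnto.le_opNorm v).trans
      (mul_le_mul_of_nonneg_right ((W i).orthogonalProjectionOnto_norm_le) (norm_nonneg _))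
  · intro k
    have h3 : (W i).orthogonalProjectionOnto (x i k) = ⟨x i k, hmem i k⟩ :=
      (W i).orthogonalProjectionOnto_mem_subspace_eq_self ⟨x i k, hmem i k⟩
    have h4 : x j k = ((ej.symm (p j k) : W j) : H) := by
      rw [hej k, LinearIsometryEquiv.symm_apply_apply]
    rw [hG, h3, ← hei k, h4, ← Submodule.coe_sub, ← map_sub]
    change ‖ej.symm (p i k - p j k)‖ ≤ _
    rw [LinearIsometryEquiv.norm_map]
    exact (norm_le_pi_norm (p i - p j) k).trans h2

end Pool.Agent.H203R3.BH
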