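import Mathlib
import Pool.Agent.Helper832.CD.J10

set_option autoImplicit false

namespace Pool.Agent.H203R3.BH

open scoped InnerProductSpace
open Pool.Agent.Helper832.CD
universe u

section

variable {H : Type u} [NormedAddCommGroup H] [InnerProductSpace ℂ H]

/-- the operator `c.1 + c.2` -/
noncomputable def mm : (ℂ × (H →L[ℂ] H)) →L[ℂ] (H →L[ℂ] H) :=
  (ContinuousLinearMap.fst ℂ ℂ (H →L[ℂ] H)).smulRight (ContinuousLinearMap.id ℂ H) +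
    ContinuousLinearMap.snd ℂ ℂ (H →L[ℂ] H)

lemma mm_apply (c : ℂ × (H →L[ℂ] H)) (x : H) : mm c x = c.1 • x + c.2 x := rfl

lemma mm_le (c : ℂ × (H →L[ℂ] H)) (x : H) : ‖mm c x‖ ≤ 2 * ‖c‖ * ‖x‖ := by
  rw [mm_apply]
  calc ‖c.1 • x + c.2 x‖ ≤ ‖c.1 • x‖ + ‖c.2 x‖ := norm_add_le _ _
    _ ≤ ‖c‖ * ‖x‖ + ‖c‖ * ‖x‖ := by
        rw [norm_smul]
        have h1 := norm_fst_le c
        have h2 := norm_snd_le c
        have h3 := c.2.le_opNorm x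
        have h4 : ‖c.2‖ * ‖x‖ ≤ ‖c‖ * ‖x‖ := by gcongr
        have h5 : ‖c.1‖ * ‖x‖ ≤ ‖c‖ * ‖x‖ := by gcongr
        linarith
    _ = 2 * ‖c‖ * ‖x‖ := by ring

lemma mm_mul (a : H →L[ℂ] H) (c : ℂ × (H →L[ℂ] H)) (x : H) :
    mm (((0 : ℂ), c.1 • a + a * c.2) : ℂ × (H →L[ℂ] H)) x = a (mm c x) := by
  rw [mm_apply, mm_apply, map_add, map_smul]
  simp

end

theorem exists_psi (H : Type u) [NormedAddCommGroup H] [InnerProductSpace ℂ H] [CompleteSpace H]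
    (V Q : Type u) [NormedAddCommGroup V] [NormedSpace ℂ V] [NormedAddCommGroup Q]
    [NormedSpace ℂ Q] (αV : (H →L[ℂ] H) →L[ℂ] V →L[ℂ] V) {L : Type u} (c : L → V →L[ℂ] H)
    (hc1 : ∀ l v, ‖c l v‖ ≤ ‖v‖) (hc2 : ∀ l a v, c l (αV a v) = a (c l v))
    (β : (H →L[ℂ] H) →L[ℂ] Q →L[ℂ] Q) (q : Q →L[ℂ] V)
    (t : (ℂ × (H →L[ℂ] H)) →L[ℂ] V →L[ℂ] Q)
    (hβt : ∀ (a : H →L[ℂ] H) (c : ℂ × (H →L[ℂ] H)) v, β a (t c v) = t (0, c.1 • a + a * c.2) v)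
    (hqt : ∀ c v, q (t c v) = c.1 • v + αV c.2 v)
    (hspan : (Submodule.span ℂ {y : Q | ∃ c v, y = t c v}).topologicalClosure = ⊤)
    (hext : ∀ B : (ℂ × (H →L[ℂ] H)) →L[ℂ] V →L[ℂ] ℂ, ∃ F : Q →L[ℂ] ℂ, ∀ c v, F (t c v) = B c v)
    (hbd : ∀ (G : Q →L[ℂ] ℂ) (C : ℝ), 0 ≤ C → (∀ c v, ‖G (t c v)‖ ≤ C * ‖c‖ * ‖v‖) →
        ∀ y, ‖G y‖ ≤ C * ‖y‖) :
    ∃ Ψ : (H →L[ℂ] H) → L → H → (Q →L[ℂ] ℂ),
      (∀ G l y a z, Ψ G l y (β a z) = Ψ G l (ContinuousLinearMap.adjoint a y) z) ∧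
      (∀ l y z, Ψ 1 l y z = ⟪y, c l (q z)⟫_ℂ) ∧
      (∀ (z : Q) (ε : ℝ), 0 < ε → ∃ (n : ℕ) (cc : Fin n → ℂ × (H →L[ℂ] H)) (vv : Fin n → V),
        ∀ (G : H →L[ℂ] H) (l : L) (y : H), ‖G‖ ≤ 1 → ‖y‖ ≤ 1 →
          ‖Ψ G l y z - ∑ k, ⟪y, mm (cc k) (G (c l (vv k)))⟫_ℂ‖ ≤ ε) := by
  classical
  have h1 : ∀ (G : H →L[ℂ] H) (l : L) (y : H), ∃ F : Q →L[ℂ] ℂ,
      (∀ b v, F (t b v) = ⟪y, mm b (G (c l v))⟫_ℂ) ∧ ∀ z, ‖F z‖ ≤ (2 * ‖y‖ * ‖G‖) * ‖z‖ := by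
    intro G l y
    obtain ⟨F, hF⟩ := hext (((ContinuousLinearMap.compL ℂ V H ℂ (innerSL ℂ y)).comp
      ((ContinuousLinearMap.compL ℂ V H H).flip (G.comp (c l)))).comp mm)
    have hF' : ∀ b v, F (t b v) = ⟪y, mm b (G (c l v))⟫_ℂ := fun b v => hF b v
    refine ⟨F, hF', hbd F _ (by positivity) fun b v => ?_⟩
    rw [hF']
    calc ‖⟪y, mm b (G (c l v))⟫_ℂ‖ ≤ ‖y‖ * ‖mm b (G (c l v))‖ := norm_inner_le_norm _ _
      _ ≤ ‖y‖ * (2 * ‖b‖ * (‖G‖ * ‖v‖)) := by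
          have h2 := mm_le b (G (c l v))
          have h3 := G.le_opNorm (c l v)
          have h4 := hc1 l v
          have h5 : ‖G‖ * ‖c l v‖ ≤ ‖G‖ * ‖v‖ := by gcongr
          have h6 : ‖G (c l v)‖ ≤ ‖G‖ * ‖v‖ := h3.trans h5
          have h7 : 2 * ‖b‖ * ‖G (c l v)‖ ≤ 2 * ‖b‖ * (‖G‖ * ‖v‖) := by gcongr
          have h8 : ‖mm b (G (c l v))‖ ≤ 2 * ‖b‖ * (‖G‖ * ‖v‖) := h2.trans h7
          gcongr
      _ = 2 * ‖y‖ * ‖G‖ * ‖b‖ * ‖v‖ := by ring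
  choose Ψ hΨ hΨn using h1
  refine ⟨Ψ, ?_, ?_, ?_⟩
  · intro G l y a z
    have h2 : (Ψ G l y).comp (β a) = Ψ G l (ContinuousLinearMap.adjoint a y) := by
      apply J10.tens_ext t hspan
      intro b v
      show Ψ G l y (β a (t b v)) = _
      rw [hβt, hΨ, hΨ, mm_mul, ContinuousLinearMap.adjoint_inner_left]
    exact congrArg (fun F : Q →L[ℂ] ℂ => F z) h2
  · intro l y z
    have h2 : Ψ 1 l y = ((innerSL ℂ y).comp (c l)).comp q := by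
      apply J10.tens_ext t hspan
      intro b v
      show _ = ⟪y, c l (q (t b v))⟫_ℂ
      rw [hΨ, hqt, mm_apply, map_add, map_smul, hc2]
      rfl
    rw [h2]
    rfl
  · intro z ε hε
    have hz : z ∈ closure ((Submodule.span ℂ {y : Q | ∃ c v, y = t c v} : Submodule ℂ Q) : Set Q) := by
      have h3 : z ∈ (Submodule.span ℂ {y : Q | ∃ c v, y = t c v}).topologicalClosure := by
        rw [hspan]; trivial
      exact h3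
    obtain ⟨z', hz', hzz⟩ := Metric.mem_closure_iff.mp hz (ε / 2) (by positivity)
    have hz2 : z' ∈ Submodule.span ℂ {y : Q | ∃ c v, y = t c v} := hz'
    rw [Submodule.mem_span_set'] at hz2
    obtain ⟨n, f, g, hfg⟩ := hz2
    have hg : ∀ i, ∃ b v, (g i : Q) = t b v := fun i => (g i).2
    choose b v hbv using hg
    refine ⟨n, fun i => f i • b i, v, fun G l y hG hy => ?_⟩
    have h3 : Ψ G l y z' = ∑ k, ⟪y, mm (f k • b k) (G (c l (v k)))⟫_ℂ := by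
      rw [← hfg, map_sum]
      refine Finset.sum_congr rfl fun i _ => ?_
      rw [map_smul, hbv, hΨ, map_smul, ContinuousLinearMap.smul_apply, inner_smul_right]
      rfl
    rw [← h3, ← map_sub]
    calc ‖Ψ G l y (z - z')‖ ≤ (2 * ‖y‖ * ‖G‖) * ‖z - z'‖ := hΨn G l y _
      _ ≤ (2 * 1 * 1) * (ε / 2) := by
          rw [dist_eq_norm] at hzz
          have h4 := norm_nonneg (z - z')
          have h5 := norm_nonneg y
          have h6 := G.opNorm_nonneg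
          gcongr
      _ = ε := by ring

end Pool.Agent.H203R3.BH
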