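import Mathlib
import Pool.Agent.H203R3.BH.AD
import Pool.Agent.H203R3.BH.Contr
import Pool.Agent.H203R3.BH.Psi

set_option autoImplicit false

namespace Pool.Agent.H203R3.BH

open scoped InnerProductSpace
universe u

/-- recursive construction of a sequence -/
theorem exists_rec {α : Type*} [Inhabited α] (good : ℕ → (ℕ → α) → α → Prop)
    (hloc : ∀ i g g' a, (∀ j < i, g j = g' j) → good i g a → good i g' a)
    (hex : ∀ i g, (∀ j < i, good j g (g j)) → ∃ a, good i g a) : ∃ g, ∀ i, good i g (g i) := by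
  classical
  have h1 : ∀ i g, ∃ a, (∀ j < i, good j g (g j)) → good i g a := by
    intro i g
    by_cases h : ∀ j < i, good j g (g j)
    · obtain ⟨a, ha⟩ := hex i g h
      exact ⟨a, fun _ => ha⟩
    · exact ⟨default, fun h' => absurd h' h⟩
  choose F hF using h1
  let G : ℕ → ℕ → α := fun n =>
    Nat.rec (motive := fun _ => ℕ → α) (fun _ => default)
      (fun n g => Function.update g n (F n g)) n
  have hG : ∀ n, G (n + 1) = Function.update (G n) n (F n (G n)) := fun n => rfl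
  have h2 : ∀ n m, n ≤ m → ∀ j < n, G m j = G n j := by
    intro n m hnm
    induction m, hnm using Nat.le_induction with
    | base => intro j _; rfl
    | succ m hnm ih =>
      intro j hj
      rw [hG, Function.update_of_ne (by omega)]
      exact ih j hj
  let g : ℕ → α := fun j => G (j + 1) j
  have h3 : ∀ n, ∀ j < n, G n j = g j := fun n j hj => h2 (j + 1) n hj j (by omega)
  have h4 : ∀ n, g n = F n (G n) := by
    intro n
    show G (n + 1) n = _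
    rw [hG, Function.update_self]
  refine ⟨g, fun n => ?_⟩
  induction n using Nat.strong_induction_on with
  | _ n ih =>
    have h5 : ∀ j < n, good j (G n) (G n j) := by
      intro j hj
      rw [h3 n j hj]
      exact hloc j g (G n) _ (fun k hk => (h3 n k (by omega)).symm) (ih j hj)
    have h6 := hF n (G n) h5
    rw [← h4] at h6
    exact hloc n (G n) g _ (fun k hk => h3 n k hk) h6

/-- one Gram-Schmidt step -/
theorem gs_step {H : Type*} [NormedAddCommGroup H] [InnerProductSpace ℂ H] (e : ℕ → H) (i : ℕ)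
    (he1 : ∀ j < i, ‖e j‖ = 1) (he2 : ∀ j < i, ∀ k < j, ⟪e k, e j⟫_ℂ = 0) (y : H)
    (hy : ‖y‖ = 1) (h : ∑ j ∈ Finset.range i, ‖⟪e j, y⟫_ℂ‖ ≤ 1 / 16) :
    ∃ e' : H, ‖e'‖ = 1 ∧ (∀ j < i, ⟪e j, e'⟫_ℂ = 0) ∧ ‖e' - y‖ ≤ 1 / 8 := by
  let p : H := ∑ j ∈ Finset.range i, ⟪e j, y⟫_ℂ • e j
  have hp : ‖p‖ ≤ 1 / 16 := by
    refine (norm_sum_le _ _).trans ?_
    refine le_trans (Finset.sum_le_sum fun j hj => ?_) h
    rw [norm_smul, he1 j (Finset.mem_range.mp hj), mul_one]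
  let w : H := y - p
  have hw1 : 1 - 1 / 16 ≤ ‖w‖ := by
    have := norm_sub_norm_le y p
    rw [hy] at this
    show _ ≤ ‖y - p‖
    linarith
  have hw2 : ‖w‖ ≤ 1 + 1 / 16 := by
    have := norm_sub_le y p
    rw [hy] at this
    show ‖y - p‖ ≤ _
    linarith
  have hw0 : ‖w‖ ≠ 0 := by
    intro h0
    rw [h0] at hw1
    norm_num at hw1
  have horth : ∀ j < i, ⟪e j, w⟫_ℂ = 0 := by
    intro j hj
    show ⟪e j, y - p⟫_ℂ = 0
    rw [inner_sub_right, inner_sum]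
    rw [Finset.sum_eq_single j]
    · rw [inner_smul_right, inner_self_eq_norm_sq_to_K, he1 j hj]
      simp
    · intro k hk hkj
      rw [inner_smul_right]
      have hk' := Finset.mem_range.mp hk
      rcases lt_or_gt_of_ne hkj with h1 | h1
      · have h2 := he2 j hj k h1
        have h3 : ⟪e j, e k⟫_ℂ = 0 := by rw [← inner_conj_symm, h2, map_zero]
        rw [h3, mul_zero]
      · rw [he2 k hk' j h1, mul_zero]
    · intro h1
      exact absurd (Finset.mem_range.mpr hj) h1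
  refine ⟨((‖w‖⁻¹ : ℝ) : ℂ) • w, ?_, ?_, ?_⟩
  · rw [norm_smul, Complex.norm_real, norm_inv, norm_norm, inv_mul_cancel₀ hw0]
  · intro j hj
    rw [inner_smul_right, horth j hj, mul_zero]
  · have h1 : ‖((‖w‖⁻¹ : ℝ) : ℂ) • w - w‖ ≤ 1 / 16 := by
      have h2 : ((‖w‖⁻¹ : ℝ) : ℂ) • w - w = (((‖w‖⁻¹ - 1 : ℝ)) : ℂ) • w := by
        rw [Complex.ofReal_sub, sub_smul, Complex.ofReal_one, one_smul]
      rw [h2, norm_smul, Complex.norm_real]
      have h3 : ‖‖w‖⁻¹ - 1‖ * ‖w‖ = |1 - ‖w‖| := by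
        rw [Real.norm_eq_abs]
        conv_lhs => rw [← abs_of_nonneg (norm_nonneg w)]
        rw [abs_of_nonneg (norm_nonneg w), ← abs_of_nonneg (norm_nonneg w)]
        rw [← abs_mul]
        congr 1
        rw [abs_of_nonneg (norm_nonneg w)]
        field_simp
      rw [h3, abs_le]
      constructor <;> linarith
    have h2 : ‖w - y‖ ≤ 1 / 16 := by
      show ‖y - p - y‖ ≤ _
      rw [show y - p - y = -p by abel, norm_neg]
      exact hp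
    calc ‖((‖w‖⁻¹ : ℝ) : ℂ) • w - y‖ = ‖(((‖w‖⁻¹ : ℝ) : ℂ) • w - w) + (w - y)‖ := by
          congr 1; abel
      _ ≤ 1 / 16 + 1 / 16 := (norm_add_le _ _).trans (add_le_add h1 h2)
      _ = 1 / 8 := by norm_num

theorem core (H : Type u) [NormedAddCommGroup H] [InnerProductSpace ℂ H] [CompleteSpace H]
    [Nontrivial H]
    (I : Ideal (H →L[ℂ] H)) (hfr : finRank H ≤ I) {K : Type u}
    [NormedAddCommGroup K] [InnerProductSpace ℂ K] [CompleteSpace K]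
    (ρ : (H →L[ℂ] H) →⋆ₐ[ℂ] (K →L[ℂ] K)) (ξ : K) (hI : ∀ b, b ∈ I ↔ ρ b ξ = 0)
    (V Q : Type u) [NormedAddCommGroup V] [NormedSpace ℂ V] [NormedAddCommGroup Q]
    [NormedSpace ℂ Q] {L : Type u} (F : Filter L) [F.NeBot] (c : L → V →L[ℂ] H)
    (hc1 : ∀ l v, ‖c l v‖ ≤ ‖v‖)
    (hc3 : ∀ v, Filter.Tendsto (fun l => ‖c l v‖) F (nhds 0))
    (β : (H →L[ℂ] H) →L[ℂ] Q →L[ℂ] Q) (q : Q →L[ℂ] V)
    (Ψ : (H →L[ℂ] H) → L → H → (Q →L[ℂ] ℂ))
    (hΨ1 : ∀ G l y a z, Ψ G l y (β a z) = Ψ G l (ContinuousLinearMap.adjoint a y) z)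
    (hΨ2 : ∀ l y z, Ψ 1 l y z = ⟪y, c l (q z)⟫_ℂ)
    (hΨ3 : ∀ (z : Q) (ε : ℝ), 0 < ε → ∃ (n : ℕ) (cc : Fin n → ℂ × (H →L[ℂ] H)) (vv : Fin n → V),
        ∀ (G : H →L[ℂ] H) (l : L) (y : H), ‖G‖ ≤ 1 → ‖y‖ ≤ 1 →
          ‖Ψ G l y z - ∑ k, ⟪y, mm (cc k) (G (c l (vv k)))⟫_ℂ‖ ≤ ε)
    (y : L → H) (hy : ∀ l, ‖y l‖ = 1)
    (hyw : ∀ f : H, Filter.Tendsto (fun l => ‖⟪f, y l⟫_ℂ‖) F (nhds 0))
    (θ : (H →L[ℂ] H) → Q) (hθ : ∀ a, ∀ b ∈ I, θ (a * b) = β a (θ b)) (s : V)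
    (hq : ∀ b ∈ I, ∀ l, c l (q (θ b)) = -(b (y l + c l s))) : False := by
  classical
  obtain ⟨e₀, he₀⟩ : ∃ e : H, ‖e‖ = 1 := exists_norm_eq H zero_le_one
  -- oscillation
  have hosc : ∀ (z : Q) (ε : ℝ), 0 < ε → ∀ᶠ l in F, ∀ (G : H →L[ℂ] H), ‖G‖ ≤ 1 →
      ∀ x : H, ‖x‖ ≤ 1 → ‖Ψ G l x z‖ ≤ ε := by
    intro z ε hε
    obtain ⟨n, cc, vv, h1⟩ := hΨ3 z (ε / 2) (by positivity)
    have h2 : Filter.Tendsto (fun l => ∑ k, 2 * ‖cc k‖ * ‖c l (vv k)‖) F (nhds 0) := by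
      have h3 := tendsto_finsetSum (Finset.univ : Finset (Fin n))
        (fun k _ => (hc3 (vv k)).const_mul (2 * ‖cc k‖))
      simpa using h3
    filter_upwards [h2.eventually (gt_mem_nhds (show (0:ℝ) < ε / 2 by positivity))] with l hl G hG x hx
    have h3 : ‖∑ k, ⟪x, mm (cc k) (G (c l (vv k)))⟫_ℂ‖ ≤ ε / 2 := by
      refine le_trans ((norm_sum_le _ _).trans (Finset.sum_le_sum fun k _ => ?_)) hl.le
      calc ‖⟪x, mm (cc k) (G (c l (vv k)))⟫_ℂ‖ ≤ ‖x‖ * ‖mm (cc k) (G (c l (vv k)))‖ :=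
            norm_inner_le_norm _ _
        _ ≤ 1 * (2 * ‖cc k‖ * (1 * ‖c l (vv k)‖)) := by
            have h4 := mm_le (cc k) (G (c l (vv k)))
            have h5 := G.le_of_opNorm_le hG (c l (vv k))
            have h6 : 2 * ‖cc k‖ * ‖G (c l (vv k))‖ ≤ 2 * ‖cc k‖ * (1 * ‖c l (vv k)‖) := by
              gcongr
            exact mul_le_mul hx (h4.trans h6) (norm_nonneg _) zero_le_one
        _ = 2 * ‖cc k‖ * ‖c l (vv k)‖ := by ring
    calc ‖Ψ G l x z‖ = ‖(Ψ G l x z - ∑ k, ⟪x, mm (cc k) (G (c l (vv k)))⟫_ℂ) +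
          ∑ k, ⟪x, mm (cc k) (G (c l (vv k)))⟫_ℂ‖ := by rw [sub_add_cancel]
      _ ≤ ε / 2 + ε / 2 := (norm_add_le _ _).trans (add_le_add (h1 G l x hG hx) h3)
      _ = ε := by ring
  -- the inductive construction
  have : Inhabited (L × H) := ⟨((Filter.nonempty_of_neBot F).some, 0)⟩
  obtain ⟨g, hg⟩ := exists_rec (α := L × H)
    (fun i g a => ‖a.2‖ = 1 ∧ (∀ j < i, ⟪(g j).2, a.2⟫_ℂ = 0) ∧ ‖a.2 - y a.1‖ ≤ 1 / 8 ∧
      ‖c a.1 s‖ ≤ 1 / 8 ∧ ∀ j < i, ∀ G : H →L[ℂ] H, ‖G‖ ≤ 1 →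
        ‖Ψ G a.1 e₀ (θ (rk H e₀ (g j).2))‖ ≤ 1 / 8)
    (by
      rintro i g g' a hgg ⟨h1, h2, h3, h4, h5⟩
      refine ⟨h1, ?_, h3, h4, ?_⟩
      · intro j hj
        rw [← hgg j hj]
        exact h2 j hj
      · intro j hj
        rw [← hgg j hj]
        exact h5 j hj)
    (by
      intro i g hg
      have h1 : ∀ᶠ l in F, ∑ j ∈ Finset.range i, ‖⟪(g j).2, y l⟫_ℂ‖ ≤ 1 / 16 := by
        have h2 : Filter.Tendsto (fun l => ∑ j ∈ Finset.range i, ‖⟪(g j).2, y l⟫_ℂ‖) F (nhds 0) := by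
          have h3 := tendsto_finsetSum (Finset.range i)
            (fun j _ => hyw (g j).2)
          simpa using h3
        filter_upwards [h2.eventually (gt_mem_nhds (show (0:ℝ) < 1 / 16 by norm_num))] with l hl
        exact hl.le
      have h2 : ∀ᶠ l in F, ‖c l s‖ ≤ 1 / 8 := by
        filter_upwards [(hc3 s).eventually (gt_mem_nhds (show (0:ℝ) < 1 / 8 by norm_num))] with l hl
        exact hl.le
      have h3 : ∀ᶠ l in F, ∀ j ∈ Finset.range i, ∀ G : H →L[ℂ] H, ‖G‖ ≤ 1 →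
          ∀ x : H, ‖x‖ ≤ 1 → ‖Ψ G l x (θ (rk H e₀ (g j).2))‖ ≤ 1 / 8 := by
        rw [Filter.eventually_all_finset]
        intro j _
        exact hosc _ _ (by norm_num)
      obtain ⟨l, hl1, hl2, hl3⟩ := (h1.and (h2.and h3)).exists
      obtain ⟨e', he1, he2, he3⟩ := gs_step (fun j => (g j).2) i (fun j hj => (hg j hj).1)
        (fun j hj k hk => (hg j hj).2.1 k hk) (y l) (hy l) hl1
      exact ⟨(l, e'), he1, he2, he3, hl2, fun j hj G hG =>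
        hl3 j (Finset.mem_range.mpr hj) G hG e₀ he₀.le⟩)
  let e : ℕ → H := fun i => (g i).2
  let l : ℕ → L := fun i => (g i).1
  have he1 : ∀ i, ‖e i‖ = 1 := fun i => (hg i).1
  have he : Orthonormal ℂ e := by
    refine ⟨he1, fun i j hij => ?_⟩
    rcases lt_or_gt_of_ne hij with h | h
    · exact (hg j).2.1 i h
    · rw [← inner_conj_symm]
      have h2 := (hg i).2.1 j h
      show (starRingEnd ℂ) ⟪e j, e i⟫_ℂ = 0
      rw [show ⟪e j, e i⟫_ℂ = 0 from h2, map_zero]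
  have hey : ∀ i, ‖e i - y (l i)‖ ≤ 1 / 8 := fun i => (hg i).2.2.1
  have hs : ∀ i, ‖c (l i) s‖ ≤ 1 / 8 := fun i => (hg i).2.2.2.1
  have hΨe : ∀ i, ∀ j < i, ∀ G : H →L[ℂ] H, ‖G‖ ≤ 1 →
        ‖Ψ G (l i) e₀ (θ (rk H e₀ (e j)))‖ ≤ 1 / 8 := fun i => (hg i).2.2.2.2
  obtain ⟨R, hR, hRI⟩ := exists_infinite_proj I hfr ρ ξ hI e he
  let P := pr e R
  have hPe : ∀ i ∈ R, P (e i) = e i := fun i hi => pr_of_mem e R i hi
  have hPa : ContinuousLinearMap.adjoint P = P := pr_adjoint e R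
  let w : Q := θ P
  have hu : ∀ j ∈ R, θ (rk H e₀ (e j)) = β (rk H e₀ (e j)) w := by
    intro j hj
    rw [← hθ _ P hRI, rk_mul, hPa, hPe j hj]
  have hΨw : ∀ G i, ∀ j ∈ R, Ψ G (l i) e₀ (θ (rk H e₀ (e j))) = Ψ G (l i) (e j) w := by
    intro G i j hj
    rw [hu j hj, hΨ1, rk_adjoint, rk_apply, inner_self_eq_norm_sq_to_K, he₀]
    simp
  have hbig : ∀ j ∈ R, 3 / 4 ≤ ‖Ψ 1 (l j) (e j) w‖ := by
    intro j hj
    rw [hΨ2, hq P hRI, inner_neg_right, norm_neg, ← hPa, ContinuousLinearMap.adjoint_inner_right,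
      hPe j hj, inner_add_right]
    have h1 : ‖⟪e j, c (l j) s⟫_ℂ‖ ≤ 1 / 8 := by
      calc ‖⟪e j, c (l j) s⟫_ℂ‖ ≤ ‖e j‖ * ‖c (l j) s‖ := norm_inner_le_norm _ _
        _ ≤ 1 * (1 / 8) := by rw [he1]; have := hs j; gcongr
        _ = 1 / 8 := by norm_num
    have h2 : 7 / 8 ≤ ‖⟪e j, y (l j)⟫_ℂ‖ := by
      have h3 : ⟪e j, y (l j)⟫_ℂ = 1 - ⟪e j, e j - y (l j)⟫_ℂ := by
        rw [inner_sub_right, inner_self_eq_norm_sq_to_K, he1]
        simp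
      have h4 : ‖⟪e j, e j - y (l j)⟫_ℂ‖ ≤ 1 / 8 := by
        calc ‖⟪e j, e j - y (l j)⟫_ℂ‖ ≤ ‖e j‖ * ‖e j - y (l j)‖ := norm_inner_le_norm _ _
          _ ≤ 1 * (1 / 8) := by rw [he1]; have := hey j; gcongr
          _ = 1 / 8 := by norm_num
      rw [h3]
      have h5 := norm_sub_norm_le (1 : ℂ) ⟪e j, e j - y (l j)⟫_ℂ
      rw [norm_one] at h5
      linarith
    have h3 := norm_sub_norm_le ⟪e j, y (l j)⟫_ℂ (-⟪e j, c (l j) s⟫_ℂ)
    rw [norm_neg, sub_neg_eq_add] at h3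
    linarith
  obtain ⟨n, cc, vv, happ⟩ := hΨ3 w (1 / 16) (by norm_num)
  let C : ℝ := ∑ k, 2 * ‖cc k‖
  have hC : 0 ≤ C := Finset.sum_nonneg fun k _ => by positivity
  obtain ⟨j, hj, i, hi, hji, G, hG, hGx⟩ := exists_contraction n (fun i k => c (l i) (vv k))
    (∑ k, ‖vv k‖) (Finset.sum_nonneg fun k _ => norm_nonneg _) (fun i k =>
      (hc1 (l i) (vv k)).trans (Finset.single_le_sum (f := fun k => ‖vv k‖)
        (fun _ _ => norm_nonneg _) (Finset.mem_univ k))) R hR (1 / (8 * (C + 1))) (by positivity)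
  have h1 := happ G (l i) (e j) hG (he1 j).le
  have h2 := happ 1 (l j) (e j) ContinuousLinearMap.norm_id_le (he1 j).le
  have h3 : ‖∑ k, ⟪e j, mm (cc k) (G (c (l i) (vv k)))⟫_ℂ -
      ∑ k, ⟪e j, mm (cc k) ((1 : H →L[ℂ] H) (c (l j) (vv k)))⟫_ℂ‖ ≤ 1 / 8 := by
    rw [← Finset.sum_sub_distrib]
    calc ‖∑ k, (⟪e j, mm (cc k) (G (c (l i) (vv k)))⟫_ℂ -
          ⟪e j, mm (cc k) ((1 : H →L[ℂ] H) (c (l j) (vv k)))⟫_ℂ)‖
        ≤ ∑ k, 2 * ‖cc k‖ * (1 / (8 * (C + 1))) := by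
          refine (norm_sum_le _ _).trans (Finset.sum_le_sum fun k _ => ?_)
          rw [← inner_sub_right, ← map_sub]
          calc ‖⟪e j, mm (cc k) (G (c (l i) (vv k)) - (1 : H →L[ℂ] H) (c (l j) (vv k)))⟫_ℂ‖
              ≤ ‖e j‖ * ‖mm (cc k) (G (c (l i) (vv k)) - (1 : H →L[ℂ] H) (c (l j) (vv k)))‖ :=
                norm_inner_le_norm _ _
            _ ≤ 1 * (2 * ‖cc k‖ * (1 / (8 * (C + 1)))) := by
                rw [he1]
                have h4 := mm_le (cc k) (G (c (l i) (vv k)) - (1 : H →L[ℂ] H) (c (l j) (vv k)))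
                have h5 := hGx k
                have h6 : 2 * ‖cc k‖ * ‖G (c (l i) (vv k)) - (1 : H →L[ℂ] H) (c (l j) (vv k))‖ ≤
                    2 * ‖cc k‖ * (1 / (8 * (C + 1))) := by
                  gcongr
                  exact h5
                exact mul_le_mul le_rfl (h4.trans h6) (norm_nonneg _) zero_le_one
            _ = 2 * ‖cc k‖ * (1 / (8 * (C + 1))) := one_mul _
      _ = C * (1 / (8 * (C + 1))) := by rw [← Finset.sum_mul]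
      _ ≤ 1 / 8 := by
          rw [mul_one_div, div_le_div_iff₀ (by positivity) (by norm_num)]
          linarith
  have h4 := hΨe i j hji G hG
  rw [hΨw G i j hj] at h4
  have h5 := hbig j hj
  have h6 : ‖Ψ 1 (l j) (e j) w‖ ≤ ‖Ψ G (l i) (e j) w‖ + 1 / 16 + 1 / 16 + 1 / 8 := by
    have h7 : Ψ 1 (l j) (e j) w = Ψ G (l i) (e j) w
        - (Ψ G (l i) (e j) w - ∑ k, ⟪e j, mm (cc k) (G (c (l i) (vv k)))⟫_ℂ)
        + (Ψ 1 (l j) (e j) w - ∑ k, ⟪e j, mm (cc k) ((1 : H →L[ℂ] H) (c (l j) (vv k)))⟫_ℂ)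
        - (∑ k, ⟪e j, mm (cc k) (G (c (l i) (vv k)))⟫_ℂ -
      ∑ k, ⟪e j, mm (cc k) ((1 : H →L[ℂ] H) (c (l j) (vv k)))⟫_ℂ) := by ring
    rw [h7]
    refine (norm_sub_le _ _).trans (add_le_add ?_ h3)
    refine (norm_add_le _ _).trans (add_le_add ?_ h2)
    exact (norm_sub_le _ _).trans (add_le_add le_rfl h1)
  linarith

end Pool.Agent.H203R3.BH
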