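import Mathlib
import Pool.Agent.Helper832.CD.Stmt

set_option autoImplicit false

/-!
The small global dimension of a Banach algebra.  The left Banach modules `LMod A`, their
homological dimension `LMod.dh`, the global dimension `dg A` and the bidimension `db A` are those of
`Pool.Agent.Helper832.CD.Stmt`.
-/

namespace Pool.Agent.H203R3.BH

open Pool.Agent.Helper832.CD

universe u

variable {A : Type u} [NonUnitalNormedRing A] [NormedSpace ℂ A]

/-- `X` is an irreducible left Banach `A`-module: the action of `A` on `X` is not zero, and the only
subspaces of `X` (closed or not) which are invariant under the action of `A` are `0` and `X`. -/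
def IsIrreducible (X : LMod A) : Prop :=
  (∃ (a : A) (x : X.carrier), X.act a x ≠ 0) ∧ ∀ N : Submodule ℂ X.carrier,
    (∀ (a : A) (x : X.carrier), x ∈ N → X.act a x ∈ N) → N = ⊥ ∨ N = ⊤

variable (A)

/-- The left small dimension of `A`: the supremum of the homological dimensions of the irreducible
left Banach `A`-modules. -/
noncomputable def ds : ℕ∞ := ⨆ (X : LMod A) (_ : IsIrreducible X), X.dh

theorem ds_le_dg : ds A ≤ dg A := iSup_le fun X => iSup_le fun _ => le_iSup (fun X : LMod A => X.dh) X

end Pool.Agent.H203R3.BH
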