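import Mathlib
import Pool.Agent.Helper832.CD.Stmt
import Pool.Agent.Helper832.CD.Base
import Pool.Agent.Helper832.CD.R1

set_option autoImplicit false

/-!
The consequence of homological dimension at most one of a single module (adapted from
`Pool.Agent.Helper832.CD.R1`).
-/

namespace Pool.Agent.H203R3.BH

open Pool.Agent.Helper832.CD

universe u

/-- derivations into the operators from `M` lift -/
def LiftsM (A : Type u) [NonUnitalNormedRing A] [NormedSpace ℂ A] (M : Type u)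
    [NormedAddCommGroup M] [NormedSpace ℂ M] (αM : A →L[ℂ] M →L[ℂ] M) : Prop :=
  ∀ (V Q : Type u) [NormedAddCommGroup V] [NormedSpace ℂ V] [CompleteSpace V]
    [NormedAddCommGroup Q] [NormedSpace ℂ Q] [CompleteSpace Q]
    (αV : A →L[ℂ] V →L[ℂ] V) (αQ : A →L[ℂ] Q →L[ℂ] Q),
    (∀ a b x, αV (a * b) x = αV a (αV b x)) →
    (∀ a b x, αQ (a * b) x = αQ a (αQ b x)) →
    ∀ (q : Q →L[ℂ] V) (s : V →L[ℂ] Q), (∀ a y, q (αQ a y) = αV a (q y)) → (∀ v, q (s v) = v) →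
    ∀ D : A →L[ℂ] M →L[ℂ] V, (∀ a b x, D (a * b) x = αV a (D b x) + D a (αM b x)) →
    ∃ (D' : A →L[ℂ] M →L[ℂ] Q) (S : M →L[ℂ] V),
      (∀ a b x, D' (a * b) x = αQ a (D' b x) + D' a (αM b x)) ∧
      ∀ a x, D a x = q (D' a x) + αV a (S x) - S (αM a x)

theorem liftsM_of_lifts (A : Type u) [NonUnitalNormedRing A] [NormedSpace ℂ A] (h : Lifts A)
    (M : Type u) [NormedAddCommGroup M] [NormedSpace ℂ M] [CompleteSpace M]
    (αM : A →L[ℂ] M →L[ℂ] M) (hM : ∀ a b x, αM (a * b) x = αM a (αM b x)) : LiftsM A M αM :=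
  fun V Q _ _ _ _ _ _ αV αQ hV hQ q s hq hs D hD =>
    h M V Q αM αV αQ hM hV hQ q s hq hs D hD

theorem lifts_of_dh_le (A : Type u) [NonUnitalNormedRing A] [NormedSpace ℂ A] (M : Type u)
    [NormedAddCommGroup M] [NormedSpace ℂ M] [CompleteSpace M]
    (αM : A →L[ℂ] M →L[ℂ] M) (hM : ∀ a b x, αM (a * b) x = αM a (αM b x))
    (hX : (mkL M αM hM).dh ≤ 1) : LiftsM A M αM := by
  intro V Q _ _ _ _ _ _ αV αQ hV hQ q s hq hs D hD
  let X : LMod A := mkL M αM hM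
  have hres : ∃ n : ℕ, n ≤ 1 ∧ X.HasResolution n := by
    by_contra hcon
    push Not at hcon
    have h2 : (2 : ℕ∞) ≤ X.dh := by
      refine le_iInf₂ fun n hn => ?_
      have h3 : 2 ≤ n := by
        by_contra h4
        exact hcon n (by omega) hn
      exact_mod_cast h3
    have h3 : (2 : ℕ∞) ≤ 1 := h2.trans hX
    exact absurd h3 (by norm_num)
  obtain ⟨n, hn, R, hR⟩ := hres
  have hsub : Subsingleton (R.P 2).carrier := hR 2 (by omega)
  let E : LMod A := extMod M V αM αV hM hV D hD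
  obtain ⟨Φ, hΦ, hΦ2⟩ := R.projective 0 E X (fun p : V × M => p.2) R.ε
    ⟨(ContinuousLinearMap.snd ℂ V M).isBoundedLinearMap, fun a x => rfl⟩
    ⟨fun x : M => ((0 : V), x), (ContinuousLinearMap.inr ℂ V M).isBoundedLinearMap, fun y => rfl⟩
    R.ε_hom
  -- bounded linear maps
  let ΦL : (R.P 0).carrier →L[ℂ] V × M := hΦ.1.toContinuousLinearMap
  let ψ : (R.P 0).carrier →L[ℂ] V := (ContinuousLinearMap.fst ℂ V M).comp ΦL
  let ε : (R.P 0).carrier →L[ℂ] M := R.ε_hom.1.toContinuousLinearMap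
  let ι : (R.P 1).carrier →L[ℂ] (R.P 0).carrier := (R.d_hom 0).1.toContinuousLinearMap
  let s0 : (R.P 0).carrier →L[ℂ] (R.P 1).carrier := (R.s_bdd 0).toContinuousLinearMap
  let s' : M →L[ℂ] (R.P 0).carrier := R.s'_bdd.toContinuousLinearMap
  have hψ : ∀ a p, ψ ((R.P 0).act a p) = αV a (ψ p) + D a (ε p) := by
    intro a p
    have h1 : Φ ((R.P 0).act a p) = E.act a (Φ p) := hΦ.2 a p
    have h2 : (Φ p).2 = R.ε p := hΦ2 p
    show (Φ ((R.P 0).act a p)).1 = αV a (Φ p).1 + D a (R.ε p)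
    rw [h1, ← h2]
    rfl
  have hει : ∀ y, ε (ι y) = 0 := fun y => R.ε_d y
  have hεs : ∀ x, ε (s' x) = x := fun x => R.ε_s x
  have hεact : ∀ a p, ε ((R.P 0).act a p) = αM a (ε p) := fun a p => R.ε_hom.2 a p
  have hιact : ∀ a p, ι ((R.P 1).act a p) = (R.P 0).act a (ι p) := fun a p => (R.d_hom 0).2 a p
  have h0 : ∀ z, ε z = 0 → ι (s0 z) = z := by
    intro z hz
    have h1 : s' (ε z) + ι (s0 z) = z := R.h_zero z
    rw [hz, map_zero, zero_add] at h1
    exact h1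
  have hs0ι : ∀ y, s0 (ι y) = y := by
    intro y
    have h1 := R.h_succ 0 y
    have h2 : R.s (0 + 1) y = 0 := Subsingleton.elim _ _
    rw [h2] at h1
    have h3 : R.d (0 + 1) 0 = 0 := ((R.d_hom (0 + 1)).1.toContinuousLinearMap).map_zero
    rw [h3, add_zero] at h1
    exact h1
  have hιinj : ∀ y z, ι y = ι z → y = z := by
    intro y z hyz
    rw [← hs0ι y, hyz, hs0ι]
  -- lift θ = ψ ∘ ι
  obtain ⟨θ', hθ', hθ2⟩ := R.projective 1 (mkL Q αQ hQ) (mkL V αV hV) (fun y : Q => q y)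
    (fun y => ψ (ι y)) ⟨q.isBoundedLinearMap, fun a y => hq a y⟩
    ⟨fun v : V => s v, s.isBoundedLinearMap, hs⟩
    ⟨(ψ.comp ι).isBoundedLinearMap, fun a y => by
      show ψ (ι ((R.P 1).act a y)) = αV a (ψ (ι y))
      rw [hιact, hψ, hει, map_zero, add_zero]⟩
  let θL : (R.P 1).carrier →L[ℂ] Q := hθ'.1.toContinuousLinearMap
  have hθL : ∀ y, q (θL y) = ψ (ι y) := fun y => hθ2 y
  have hθact : ∀ a y, θL ((R.P 1).act a y) = αQ a (θL y) := fun a y => hθ'.2 a y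
  let Act : A →L[ℂ] (R.P 0).carrier →L[ℂ] (R.P 0).carrier := (R.P 0).bdd.toContinuousLinearMap
  have hAct : ∀ a p, Act a p = (R.P 0).act a p := fun a p => rfl
  let γ0 : A →L[ℂ] M →L[ℂ] (R.P 0).carrier :=
    (Act.flip.comp s').flip - (ContinuousLinearMap.compL ℂ M M (R.P 0).carrier s').comp αM
  have hγ0 : ∀ a x, γ0 a x = (R.P 0).act a (s' x) - s' (αM a x) := fun a x => rfl
  let γ : A →L[ℂ] M →L[ℂ] (R.P 1).carrier :=
    (ContinuousLinearMap.compL ℂ M (R.P 0).carrier (R.P 1).carrier s0).comp γ0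
  have hγ : ∀ a x, γ a x = s0 (γ0 a x) := fun a x => rfl
  have hιγ : ∀ a x, ι (γ a x) = (R.P 0).act a (s' x) - s' (αM a x) := by
    intro a x
    rw [hγ, h0, hγ0]
    rw [hγ0, map_sub, hεact, hεs, hεs, sub_self]
  have hactsub : ∀ a (x y : (R.P 0).carrier), (R.P 0).act a (x - y) =
      (R.P 0).act a x - (R.P 0).act a y := by
    intro a x y
    rw [← hAct, ← hAct, ← hAct, map_sub]
  have hγmul : ∀ a b x, γ (a * b) x = (R.P 1).act a (γ b x) + γ a (αM b x) := by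
    intro a b x
    apply hιinj
    rw [map_add, hιact, hιγ, hιγ, hιγ, hactsub, (R.P 0).act_mul, hM]
    abel
  refine ⟨(ContinuousLinearMap.compL ℂ M (R.P 1).carrier Q θL).comp γ, -(ψ.comp s'), ?_, ?_⟩
  · intro a b x
    show θL (γ (a * b) x) = αQ a (θL (γ b x)) + θL (γ a (αM b x))
    rw [hγmul, map_add, hθact]
  · intro a x
    show D a x = q (θL (γ a x)) + αV a (-(ψ (s' x))) - (-(ψ (s' (αM a x))))
    rw [hθL, hιγ, map_sub, hψ, hεs, map_neg]
    abel



end Pool.Agent.H203R3.BH
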