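import Mathlib
import Pool.Agent.H203R3.BH.Defs
import Pool.Agent.Helper832.CD.R1

set_option autoImplicit false

namespace Pool.Agent.H203R3.BH

open scoped InnerProductSpace
open Pool.Agent.Helper832.CD
universe u

theorem lift_lin {E F : Type*} [NormedAddCommGroup E] [NormedSpace ℂ E] [NormedAddCommGroup F]
    [NormedSpace ℂ F] (S : Submodule ℂ E) (f : E →L[ℂ] F) (h : ∀ s ∈ S, f s = 0) :
    ∃ g : (E ⧸ S) →ₗ[ℂ] F, (∀ x, g (S.mkQ x) = f x) ∧ ∀ x, ‖g x‖ ≤ ‖f‖ * ‖x‖ := by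
  let g : (E ⧸ S) →ₗ[ℂ] F := S.liftQ f.toLinearMap h
  have hg : ∀ x, g (S.mkQ x) = f x := fun x => rfl
  refine ⟨g, hg, fun x => ?_⟩
  refine le_of_forall_pos_le_add fun ε hε => ?_
  obtain ⟨m, hm, hm2⟩ := Submodule.Quotient.norm_mk_lt x
    (show 0 < ε / (‖f‖ + 1) by have := norm_nonneg f; positivity)
  have h1 : g x = f m := by
    rw [← hm]
    exact hg m
  rw [h1]
  have h2 : ‖f‖ * (ε / (‖f‖ + 1)) ≤ ε := by
    have := norm_nonneg f
    rw [mul_div_assoc', div_le_iff₀ (by positivity)]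
    nlinarith
  calc ‖f m‖ ≤ ‖f‖ * ‖m‖ := f.le_opNorm m
    _ ≤ ‖f‖ * (‖x‖ + ε / (‖f‖ + 1)) := by gcongr
    _ = ‖f‖ * ‖x‖ + ‖f‖ * (ε / (‖f‖ + 1)) := by ring
    _ ≤ _ := by linarith

theorem exists_quot_module (B : Type u) [NormedRing B] [NormedAlgebra ℂ B] [CompleteSpace B]
    (I : Ideal B) (hI : I.IsMaximal) {K : Type u} [NormedAddCommGroup K]
    [NormedSpace ℂ K] (ρ : B →L[ℂ] K →L[ℂ] K) (hρ : ∀ a b x, ρ (a * b) x = ρ a (ρ b x))
    (hρ1 : ∀ x, ρ 1 x = x) (ξ : K) (hIξ : ∀ b ∈ I, ρ b ξ = 0) :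
    ∃ (M : Type u) (_ : NormedAddCommGroup M) (_ : NormedSpace ℂ M) (_ : CompleteSpace M)
      (αM : B →L[ℂ] M →L[ℂ] M) (hM : ∀ a b x, αM (a * b) x = αM a (αM b x)) (x₀ : M)
      (j : M →L[ℂ] K), IsIrreducible (mkL M αM hM) ∧ (∀ b ∈ I, αM b x₀ = 0) ∧ j x₀ = ξ ∧
      ∀ a x, j (αM a x) = ρ a (j x) := by
  let S : Submodule ℂ B := I.restrictScalars ℂ
  have hS : ∀ b, b ∈ S ↔ b ∈ I := fun b => Iff.rfl
  have hcl : IsClosed (S : Set B) := by
    have h1 : IsClosed (I : Set B) := Ideal.IsMaximal.isClosed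
    exact h1
  have hmk : ∀ x : B ⧸ S, ∃ b, S.mkQ b = x := Submodule.mkQ_surjective S
  -- the action
  have h1 : ∀ a : B, ∀ s ∈ S,
      (S.mkQ.comp (LinearMap.mulLeft ℂ a)) s = 0 := by
    intro a s hs
    show S.mkQ (a * s) = 0
    rw [Submodule.mkQ_apply, Submodule.Quotient.mk_eq_zero]
    exact I.mul_mem_left a hs
  let act : B → (B ⧸ S) →ₗ[ℂ] (B ⧸ S) := fun a => S.liftQ (S.mkQ.comp (LinearMap.mulLeft ℂ a)) (h1 a)
  have hact : ∀ a b, act a (S.mkQ b) = S.mkQ (a * b) := fun a b => rfl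
  have hactn : ∀ a x, ‖act a x‖ ≤ ‖a‖ * ‖x‖ := by
    intro a x
    refine le_of_forall_pos_le_add fun ε hε => ?_
    obtain ⟨m, hm, hm2⟩ := Submodule.Quotient.norm_mk_lt x
      (show 0 < ε / (‖a‖ + 1) by have := norm_nonneg a; positivity)
    have h2 : act a x = S.mkQ (a * m) := by
      rw [← hm]
      exact hact a m
    rw [h2]
    have h3 : ‖a‖ * (ε / (‖a‖ + 1)) ≤ ε := by
      have := norm_nonneg a
      rw [mul_div_assoc', div_le_iff₀ (by positivity)]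
      nlinarith
    calc ‖S.mkQ (a * m)‖ ≤ ‖a * m‖ := Submodule.Quotient.norm_mk_le S _
      _ ≤ ‖a‖ * ‖m‖ := norm_mul_le _ _
      _ ≤ ‖a‖ * (‖x‖ + ε / (‖a‖ + 1)) := by gcongr
      _ = ‖a‖ * ‖x‖ + ‖a‖ * (ε / (‖a‖ + 1)) := by ring
      _ ≤ _ := by linarith
  let α0 : B →ₗ[ℂ] (B ⧸ S) →ₗ[ℂ] (B ⧸ S) :=
    LinearMap.mk₂ ℂ (fun a x => act a x)
      (by
        intro a a' x
        obtain ⟨b, rfl⟩ := hmk x
        rw [hact, hact, hact, add_mul, map_add])
      (by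
        intro t a x
        obtain ⟨b, rfl⟩ := hmk x
        rw [hact, hact, smul_mul_assoc, map_smul])
      (by
        intro a x x'
        rw [map_add])
      (by
        intro t a x
        rw [map_smul])
  let αM : B →L[ℂ] (B ⧸ S) →L[ℂ] (B ⧸ S) := α0.mkContinuous₂ 1 (fun a x => by
    rw [one_mul]
    exact hactn a x)
  have hαM : ∀ a b, αM a (S.mkQ b) = S.mkQ (a * b) := fun a b => rfl
  have hM : ∀ a b x, αM (a * b) x = αM a (αM b x) := by
    intro a b x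
    obtain ⟨c, rfl⟩ := hmk x
    rw [hαM, hαM, hαM, mul_assoc]
  obtain ⟨g, hg, hgn⟩ := lift_lin S (ρ.flip ξ) (fun s hs => hIξ s hs)
  refine ⟨B ⧸ S, inferInstance, inferInstance, inferInstance, αM, hM, S.mkQ 1,
    g.mkContinuous _ hgn, ⟨?_, ?_⟩, ?_, ?_, ?_⟩
  · refine ⟨(1 : B), (S.mkQ 1 : B ⧸ S), ?_⟩
    show αM 1 (S.mkQ 1) ≠ 0
    rw [hαM, mul_one]
    intro h
    rw [Submodule.mkQ_apply, Submodule.Quotient.mk_eq_zero] at h
    exact hI.ne_top ((Ideal.eq_top_iff_one I).mpr h)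
  · intro N hN
    have hN' : ∀ (a : B) (x : B ⧸ S), x ∈ N → αM a x ∈ N := hN
    let J : Ideal B :=
      { carrier := {b | S.mkQ b ∈ N}
        zero_mem' := by
          show S.mkQ 0 ∈ N
          rw [map_zero]
          exact N.zero_mem
        add_mem' := by
          intro a b ha hb
          show S.mkQ (a + b) ∈ N
          rw [map_add]
          exact N.add_mem ha hb
        smul_mem' := by
          intro c b hb
          show S.mkQ (c * b) ∈ N
          rw [← hαM]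
          exact hN' c _ hb }
    have hJ : I ≤ J := by
      intro b hb
      show S.mkQ b ∈ N
      have h2 : S.mkQ b = 0 := by
        rw [Submodule.mkQ_apply, Submodule.Quotient.mk_eq_zero]
        exact hb
      rw [h2]
      exact N.zero_mem
    by_cases hJt : J = ⊤
    · right
      rw [eq_top_iff]
      intro x _
      obtain ⟨b, rfl⟩ := hmk x
      have h2 : b ∈ J := by rw [hJt]; trivial
      exact h2
    · left
      have h2 : I = J := hI.eq_of_le hJt hJ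
      rw [eq_bot_iff]
      intro x hx
      obtain ⟨b, rfl⟩ := hmk x
      have h3 : b ∈ J := hx
      rw [← h2] at h3
      show S.mkQ b = 0
      rw [Submodule.mkQ_apply, Submodule.Quotient.mk_eq_zero]
      exact h3
  · intro b hb
    rw [hαM, mul_one, Submodule.mkQ_apply, Submodule.Quotient.mk_eq_zero]
    exact hb
  · show g (S.mkQ 1) = ξ
    rw [hg]
    exact hρ1 ξ
  · intro a x
    obtain ⟨b, rfl⟩ := hmk x
    show g (αM a (S.mkQ b)) = ρ a (g (S.mkQ b))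
    rw [hαM, hg, hg]
    exact hρ a b ξ

end Pool.Agent.H203R3.BH
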