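import Mathlib
import Pool.Agent.H203R3.BH.Idl
import Pool.Agent.H203R3.BH.Lim

set_option autoImplicit false

namespace Pool.Agent.H203R3.BH

open scoped InnerProductSpace
universe u

theorem exists_state (H : Type u) [NormedAddCommGroup H] [InnerProductSpace ℂ H] [CompleteSpace H]
    [Nontrivial H] (I : Ideal (H →L[ℂ] H)) (hI : I.IsMaximal) :
    ∃ (ι : Type u) (ζ : ι → H) (U : Ultrafilter ι) (K : Type u) (_ : NormedAddCommGroup K)
      (_ : InnerProductSpace ℂ K) (_ : CompleteSpace K)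
      (ρ : (H →L[ℂ] H) →⋆ₐ[ℂ] (K →L[ℂ] K)) (ξ : K),
      (∀ n, ‖ζ n‖ = 1) ∧
      (∀ b : H →L[ℂ] H, Filter.Tendsto
        (fun n => ⟪ζ n, StarAlgHom.id ℂ (H →L[ℂ] H) b (ζ n)⟫_ℂ) (U : Filter ι)
        (nhds ⟪ξ, ρ b ξ⟫_ℂ)) ∧
      (∀ (h : K) (ε : ℝ), 0 < ε → ∃ c : H →L[ℂ] H, ‖h - ρ c ξ‖ < ε) ∧
      ‖ξ‖ = 1 ∧ ∀ b, b ∈ I ↔ ρ b ξ = 0 := by
  classical
  have h1 : ∀ n : Finset I × ℕ, ∃ y : H, ‖y‖ = 1 ∧ ∀ T ∈ n.1, ‖(T : H →L[ℂ] H) y‖ ≤
      1 / ((n.2 : ℝ) + 1) := by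
    intro n
    obtain ⟨y, hy, h⟩ := exists_small I hI.ne_top (n.1.image Subtype.val) (by
      intro T hT
      obtain ⟨T', -, rfl⟩ := Finset.mem_image.mp hT
      exact T'.2) (1 / ((n.2 : ℝ) + 1)) (by positivity)
    exact ⟨y, hy, fun T hT => h T (Finset.mem_image_of_mem _ hT)⟩
  choose ζ hζ1 hζ using h1
  let U : Ultrafilter (Finset I × ℕ) := Ultrafilter.of Filter.atTop
  have hU : (U : Filter (Finset I × ℕ)) ≤ Filter.atTop := Ultrafilter.of_le _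
  obtain ⟨K, i1, i2, i3, ρ, ξ, hlim, hcyc⟩ := exists_limit_rep (H →L[ℂ] H) H
    (StarAlgHom.id ℂ (H →L[ℂ] H)) ζ hζ1 U
  have hnorm : ∀ b : H →L[ℂ] H, Filter.Tendsto (fun n => ((‖b (ζ n)‖ ^ 2 : ℝ) : ℂ))
      (U : Filter (Finset I × ℕ)) (nhds ((‖ρ b ξ‖ ^ 2 : ℝ) : ℂ)) := by
    intro b
    have h2 := hlim (star b * b)
    have h3 : ⟪ξ, ρ (star b * b) ξ⟫_ℂ = ((‖ρ b ξ‖ ^ 2 : ℝ) : ℂ) := by
      rw [map_mul, map_star, ContinuousLinearMap.star_eq_adjoint]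
      show ⟪ξ, ContinuousLinearMap.adjoint (ρ b) (ρ b ξ)⟫_ℂ = _
      rw [ContinuousLinearMap.adjoint_inner_right, inner_self_eq_norm_sq_to_K]
      simp
    rw [h3] at h2
    refine h2.congr fun n => ?_
    show ⟪ζ n, (star b * b) (ζ n)⟫_ℂ = _
    rw [ContinuousLinearMap.star_eq_adjoint]
    show ⟪ζ n, ContinuousLinearMap.adjoint b (b (ζ n))⟫_ℂ = _
    rw [ContinuousLinearMap.adjoint_inner_right, inner_self_eq_norm_sq_to_K]
    simp
  have hξ : ‖ξ‖ = 1 := by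
    have h2 := hnorm 1
    rw [map_one] at h2
    have h3 : (fun n => ((‖(1 : H →L[ℂ] H) (ζ n)‖ ^ 2 : ℝ) : ℂ)) = fun _ => (1 : ℂ) := by
      funext n
      rw [ContinuousLinearMap.one_apply, hζ1]
      simp
    rw [h3] at h2
    have h4 := tendsto_nhds_unique h2 tendsto_const_nhds
    have h5 : ((‖ξ‖ ^ 2 : ℝ) : ℂ) = ((1 : ℝ) : ℂ) := by
      rw [Complex.ofReal_one]
      exact h4
    have h6 : (‖ξ‖ : ℝ) ^ 2 = 1 := Complex.ofReal_injective h5
    nlinarith [norm_nonneg ξ]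
  have hI0 : ∀ b ∈ I, ρ b ξ = 0 := by
    intro b hb
    have h2 : Filter.Tendsto (fun n => ((‖b (ζ n)‖ ^ 2 : ℝ) : ℂ))
      (U : Filter (Finset I × ℕ)) (nhds ((0 : ℝ) : ℂ)) := by
      refine (Complex.continuous_ofReal.tendsto 0).comp ?_
      refine Filter.Tendsto.mono_left ?_ hU
      rw [Metric.tendsto_nhds]
      intro ε hε
      obtain ⟨N, hN⟩ := exists_nat_gt (1 / ε)
      filter_upwards [Filter.eventually_ge_atTop (({⟨b, hb⟩}, N) : Finset I × ℕ)] with n hn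
      have h3 := hζ n ⟨b, hb⟩ (hn.1 (Finset.mem_singleton_self _))
      have h4 : (N : ℝ) ≤ n.2 := by exact_mod_cast hn.2
      have h5 : 0 < 1 / ε := by positivity
      have h6 : 1 / ((n.2 : ℝ) + 1) ≤ 1 := by
        rw [div_le_one (by positivity)]
        linarith
      have h7 : 1 / ((n.2 : ℝ) + 1) < ε := by
        rw [div_lt_iff₀ (by positivity)]
        rw [div_lt_iff₀ hε] at hN
        nlinarith
      rw [dist_zero_right, Real.norm_of_nonneg (by positivity)]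
      have h8 : 0 ≤ ‖b (ζ n)‖ := norm_nonneg _
      have h9 : ‖b (ζ n)‖ ≤ 1 / ((n.2 : ℝ) + 1) := h3
      nlinarith
    have h3 := tendsto_nhds_unique (hnorm b) h2
    have h4 : ‖ρ b ξ‖ ^ 2 = 0 := Complex.ofReal_injective h3
    exact norm_eq_zero.mp (pow_eq_zero_iff (two_ne_zero) |>.mp h4)
  let N : Ideal (H →L[ℂ] H) :=
    { carrier := {b | ρ b ξ = 0}
      zero_mem' := by
        show ρ 0 ξ = 0
        rw [map_zero]; rfl
      add_mem' := by
        intro a b ha hb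
        have ha' : ρ a ξ = 0 := ha
        have hb' : ρ b ξ = 0 := hb
        show ρ (a + b) ξ = 0
        rw [map_add, ContinuousLinearMap.add_apply, ha', hb', add_zero]
      smul_mem' := by
        intro c b hb
        have hb' : ρ b ξ = 0 := hb
        show ρ (c * b) ξ = 0
        rw [map_mul, ContinuousLinearMap.mul_apply, hb', map_zero] }
  have hN1 : N ≠ ⊤ := by
    intro h
    have h2 : (1 : H →L[ℂ] H) ∈ N := by rw [h]; trivial
    have h3 : ρ 1 ξ = 0 := h2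
    rw [map_one, ContinuousLinearMap.one_apply] at h3
    rw [h3, norm_zero] at hξ
    exact zero_ne_one hξ
  have hN2 : I ≤ N := fun b hb => hI0 b hb
  have hN3 : I = N := hI.eq_of_le hN1 hN2
  refine ⟨Finset I × ℕ, ζ, U, K, i1, i2, i3, ρ, ξ, hζ1, hlim, hcyc, hξ, fun b => ?_⟩
  constructor
  · exact hI0 b
  · intro hb
    rw [hN3]
    exact hb

end Pool.Agent.H203R3.BH
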