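import Mathlib
import Pool.Agent.Helper832.CD.J9

set_option autoImplicit false

namespace Pool.Agent.H203R3.BH

open scoped InnerProductSpace
open Pool.Agent.Helper832.CD.J9
universe u

theorem exists_V (B : Type u) [NormedRing B] [NormedAlgebra ℂ B] (H K M : Type u)
    [NormedAddCommGroup H] [NormedSpace ℂ H] [CompleteSpace H]
    [NormedAddCommGroup K] [NormedSpace ℂ K] [NormedAddCommGroup M] [NormedSpace ℂ M]
    (π : B →L[ℂ] H →L[ℂ] H) (ρ : B →L[ℂ] K →L[ℂ] K) (hπ : ∀ a b x, π (a * b) x = π a (π b x))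
    (hρ : ∀ a b x, ρ (a * b) x = ρ a (ρ b x)) (αM : B →L[ℂ] M →L[ℂ] M)
    (j : M →L[ℂ] K) (hj : ∀ a x, j (αM a x) = ρ a (j x)) (L : Type u) (F : Filter L)
    (Z : L → K →L[ℂ] H) (hZ : ∀ l, ‖Z l‖ ≤ 2)
    (hZF : ∀ a k, Filter.Tendsto (fun l => ‖Z l (ρ a k) - π a (Z l k)‖) F (nhds 0)) :
    ∃ (V : Type u) (_ : NormedAddCommGroup V) (_ : NormedSpace ℂ V) (_ : CompleteSpace V)
      (αV : B →L[ℂ] V →L[ℂ] V) (D : B →L[ℂ] M →L[ℂ] V) (c : L → V →L[ℂ] H),
      (∀ a b x, αV (a * b) x = αV a (αV b x)) ∧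
      (∀ a b x, D (a * b) x = αV a (D b x) + D a (αM b x)) ∧
      (∀ l v, ‖c l v‖ ≤ ‖v‖) ∧ (∀ l a v, c l (αV a v) = π a (c l v)) ∧
      (∀ v, Filter.Tendsto (fun l => ‖c l v‖) F (nhds 0)) ∧
      (∀ l a x, c l (D a x) = Z l (ρ a (j x)) - π a (Z l (j x))) := by
  classical
  obtain ⟨αH, hαH⟩ := mv_bil L (fun _ : L => π) ‖π‖ π.opNorm_nonneg (fun _ => le_rfl)
  choose B' hB' hBn using fun l => mv_comm π ρ (Z l) (hZ l)
  -- composition with `j`
  let B0 : L → B →L[ℂ] M →L[ℂ] H := fun l =>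
    -(((ContinuousLinearMap.compL ℂ M K H).flip j).comp (B' l))
  have hB0 : ∀ l a x, B0 l a x = Z l (ρ a (j x)) - π a (Z l (j x)) := by
    intro l a x
    show -(B' l a (j x)) = _
    rw [hB', neg_sub]
  have hB0n : ∀ l, ‖B0 l‖ ≤ (2 * ‖π‖ + 2 * ‖ρ‖) * ‖j‖ := by
    intro l
    refine ContinuousLinearMap.opNorm_le_bound₂ _ (by positivity) fun a x => ?_
    show ‖-(B' l a (j x))‖ ≤ _
    rw [norm_neg]
    calc ‖B' l a (j x)‖ ≤ ‖B' l‖ * ‖a‖ * ‖j x‖ := (B' l).le_opNorm₂ a (j x)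
      _ ≤ (2 * ‖π‖ + 2 * ‖ρ‖) * ‖a‖ * (‖j‖ * ‖x‖) := by
          have h1 := hBn l
          have h2 := j.le_opNorm x
          gcongr
      _ = (2 * ‖π‖ + 2 * ‖ρ‖) * ‖j‖ * ‖a‖ * ‖x‖ := by ring
  obtain ⟨D0, hD0⟩ := mv_bil L B0 ((2 * ‖π‖ + 2 * ‖ρ‖) * ‖j‖) (by positivity) hB0n
  -- the diagonal
  have hmem : ∀ x : M, Memℓp (fun _ : L => x) ⊤ := by
    intro x
    apply memℓp_infty
    refine ⟨‖x‖, ?_⟩
    rintro _ ⟨l, rfl⟩
    exact le_rfl
  let δ0 : M →ₗ[ℂ] lp (fun _ : L => M) ⊤ :=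
    { toFun := fun x => ⟨fun _ => x, hmem x⟩
      map_add' := by
        intro x y
        apply lp.ext
        funext l
        rfl
      map_smul' := by
        intro t x
        apply lp.ext
        funext l
        rfl }
  let δ : M →L[ℂ] lp (fun _ : L => M) ⊤ := δ0.mkContinuous 1 (fun x => by
    rw [one_mul]
    exact lp.norm_le_of_forall_le (norm_nonneg _) (fun l => le_rfl))
  have hδ : ∀ x l, δ x l = x := fun x l => rfl
  -- null families
  let VS : Submodule ℂ (lp (fun _ : L => H) ⊤) :=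
    { carrier := {v | Filter.Tendsto (fun l => ‖v l‖) F (nhds 0)}
      zero_mem' := by
        have h1 : (fun l => ‖(0 : lp (fun _ : L => H) ⊤) l‖) = fun _ => (0:ℝ) := by
          funext l
          rw [lp.coeFn_zero, Pi.zero_apply, norm_zero]
        show Filter.Tendsto _ F (nhds 0)
        rw [h1]
        exact tendsto_const_nhds
      add_mem' := by
        intro v w hv hw
        have hv' : Filter.Tendsto (fun l => ‖v l‖) F (nhds 0) := hv
        have hw' : Filter.Tendsto (fun l => ‖w l‖) F (nhds 0) := hw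
        have h2 := hv'.add hw'
        rw [add_zero] at h2
        show Filter.Tendsto (fun l => ‖(v + w : lp (fun _ : L => H) ⊤) l‖) F (nhds 0)
        refine squeeze_zero (fun l => norm_nonneg _) (fun l => ?_) h2
        rw [lp.coeFn_add, Pi.add_apply]
        exact norm_add_le _ _
      smul_mem' := by
        intro t v hv
        have hv' : Filter.Tendsto (fun l => ‖v l‖) F (nhds 0) := hv
        show Filter.Tendsto (fun l => ‖(t • v : lp (fun _ : L => H) ⊤) l‖) F (nhds 0)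
        have h2 := hv'.const_mul ‖t‖
        rw [mul_zero] at h2
        refine h2.congr fun l => ?_
        rw [lp.coeFn_smul, Pi.smul_apply, norm_smul] }
  have hclosed : IsClosed (VS : Set (lp (fun _ : L => H) ⊤)) := by
    apply isClosed_of_closure_subset
    intro v hv
    show Filter.Tendsto (fun l => ‖v l‖) F (nhds 0)
    rw [Metric.tendsto_nhds]
    intro ε hε
    obtain ⟨w, hw, hvw⟩ := Metric.mem_closure_iff.mp hv (ε / 2) (by positivity)
    have hw' : Filter.Tendsto (fun l => ‖w l‖) F (nhds 0) := hw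
    have hw1 := (Metric.tendsto_nhds.mp hw') (ε / 2) (by positivity)
    filter_upwards [hw1] with l hl
    rw [dist_zero_right, norm_norm] at hl ⊢
    have h2 : ‖v l - w l‖ ≤ dist v w := by
      rw [dist_eq_norm]
      have := lp.norm_apply_le_norm (by norm_num : (⊤ : ENNReal) ≠ 0) (v - w) l
      rwa [lp.coeFn_sub, Pi.sub_apply] at this
    have h1 : v l = w l + (v l - w l) := by abel
    rw [h1]
    calc ‖w l + (v l - w l)‖ ≤ ‖w l‖ + ‖v l - w l‖ := norm_add_le _ _
      _ < ε := by linarith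
  have hcomp : CompleteSpace VS := hclosed.completeSpace_coe
  have hVinv : ∀ (a : B) (v : VS), αH a (VS.subtypeL v) ∈ VS := by
    intro a v
    show Filter.Tendsto (fun l => ‖(αH a (VS.subtypeL v)) l‖) F (nhds 0)
    have hv : Filter.Tendsto (fun l => ‖(v : lp (fun _ : L => H) ⊤) l‖) F (nhds 0) := v.2
    have h2 := hv.const_mul ‖π a‖
    rw [mul_zero] at h2
    refine squeeze_zero (fun l => norm_nonneg _) (fun l => ?_) h2
    rw [hαH]
    exact (π a).le_opNorm _
  obtain ⟨αV, hαV⟩ := mv_restr αH VS.subtypeL VS hVinv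
  have hDinv : ∀ (a : B) (x : M), D0 a (δ x) ∈ VS := by
    intro a x
    show Filter.Tendsto (fun l => ‖(D0 a (δ x)) l‖) F (nhds 0)
    refine (hZF a (j x)).congr fun l => ?_
    rw [hD0, hδ, hB0]
  obtain ⟨D, hD⟩ := mv_restr D0 δ VS hDinv
  have hDl : ∀ a x l, ((D a x : VS) : lp (fun _ : L => H) ⊤) l
      = Z l (ρ a (j x)) - π a (Z l (j x)) := by
    intro a x l
    rw [hD, hD0, hδ, hB0]
  have hαVl : ∀ a (v : VS) l, ((αV a v : VS) : lp (fun _ : L => H) ⊤) l
      = π a ((v : lp (fun _ : L => H) ⊤) l) := by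
    intro a v l
    rw [hαV, hαH]
    rfl
  have hc : ∀ l : L, ∃ c : VS →L[ℂ] H, ∀ v : VS, c v = (v : lp (fun _ : L => H) ⊤) l := by
    intro l
    let f : VS →ₗ[ℂ] H :=
      { toFun := fun v => (v : lp (fun _ : L => H) ⊤) l
        map_add' := by
          intro v w
          show ((v : lp (fun _ : L => H) ⊤) + (w : lp (fun _ : L => H) ⊤)) l = _
          rw [lp.coeFn_add, Pi.add_apply]
        map_smul' := by
          intro t v
          show (t • (v : lp (fun _ : L => H) ⊤)) l = _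
          rw [lp.coeFn_smul, Pi.smul_apply]
          rfl }
    refine ⟨f.mkContinuous 1 (fun v => ?_), fun v => rfl⟩
    rw [one_mul]
    exact lp.norm_apply_le_norm (by norm_num : (⊤ : ENNReal) ≠ 0) (v : lp (fun _ : L => H) ⊤) l
  choose c hc using hc
  refine ⟨VS, inferInstance, inferInstance, hcomp, αV, D, c, ?_, ?_, ?_, ?_, ?_, ?_⟩
  · intro a b x
    apply Subtype.ext
    apply lp.ext
    funext l
    rw [hαVl, hαVl, hαVl, hπ]
  · intro a b x
    apply Subtype.ext
    apply lp.ext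
    funext l
    rw [hDl, Submodule.coe_add, lp.coeFn_add, Pi.add_apply, hαVl, hDl, hDl, hρ, hπ, map_sub, hj]
    abel
  · intro l v
    rw [hc]
    exact lp.norm_apply_le_norm (by norm_num : (⊤ : ENNReal) ≠ 0) (v : lp (fun _ : L => H) ⊤) l
  · intro l a v
    rw [hc, hc, hαVl]
  · intro v
    simp_rw [hc]
    exact v.2
  · intro l a x
    rw [hc, hDl]

end Pool.Agent.H203R3.BH
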