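import Mathlib
import Pool.Agent.H203R3.BH.State
import Pool.Agent.H203R3.BH.AI
import Pool.Agent.H203R3.BH.QMod
import Pool.Agent.H203R3.BH.VMod
import Pool.Agent.H203R3.BH.Core
import Pool.Agent.H203R3.BH.Lift
import Pool.Agent.Helper832.CD.J8
import Pool.Agent.Helper832.CD.R2

set_option autoImplicit false

namespace Pool.Agent.H203R3.BH

open scoped InnerProductSpace
open Pool.Agent.Helper832.CD
universe u

theorem exists_irreducible (H : Type u) [NormedAddCommGroup H] [InnerProductSpace ℂ H]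
    [CompleteSpace H] (hH : ¬ FiniteDimensional ℂ H) :
    ∃ (M : Type u) (_ : NormedAddCommGroup M) (_ : NormedSpace ℂ M) (_ : CompleteSpace M)
      (αM : (H →L[ℂ] H) →L[ℂ] M →L[ℂ] M) (hM : ∀ a b x, αM (a * b) x = αM a (αM b x)),
      IsIrreducible (mkL M αM hM) ∧ ¬ LiftsM (H →L[ℂ] H) M αM := by
  classical
  have hnt : Nontrivial H := by
    by_contra h
    rw [not_nontrivial_iff_subsingleton] at h
    exact hH inferInstance
  obtain ⟨I, hI, hfr⟩ := Ideal.exists_le_maximal (finRank H) (finRank_ne_top H hH)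
  obtain ⟨ι, ζ, U, K, i1, i2, i3, ρ, ξ, hζ, hlim, hcyc, hξ, hIξ⟩ := exists_state H I hI
  let ρL : (H →L[ℂ] H) →L[ℂ] K →L[ℂ] K :=
    LinearMap.mkContinuous (ρ : (H →L[ℂ] H) →ₗ[ℂ] (K →L[ℂ] K)) 1 (fun a => by
      rw [one_mul]
      exact NonUnitalStarAlgHom.norm_apply_le (ρ : (H →L[ℂ] H) →⋆ₙₐ[ℂ] (K →L[ℂ] K)) a)
  have hρL : ∀ a x, ρL a x = ρ a x := fun a x => rfl
  have hρm : ∀ a b x, ρL (a * b) x = ρL a (ρL b x) := by
    intro a b x
    rw [hρL, hρL, hρL, map_mul]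
    rfl
  have hρ1 : ∀ x, ρL 1 x = x := by
    intro x
    rw [hρL, map_one]
    rfl
  obtain ⟨M, j1, j2, j3, αM, hM, x₀, j, hirr, hx₀, hjx₀, hj⟩ :=
    exists_quot_module (H →L[ℂ] H) I hI ρL hρm hρ1 ξ (fun b hb => (hIξ b).mp hb)
  refine ⟨M, j1, j2, j3, αM, hM, hirr, fun hL => ?_⟩
  let L := Finset ((H →L[ℂ] H) × K) × ℕ
  have h1 : ∀ l : L, ∃ (n : ι) (Z : K →L[ℂ] H), ‖Z‖ ≤ 2 ∧ Z ξ = ζ n ∧ ∀ p ∈ l.1,
      ‖Z (ρ p.1 p.2) - p.1 (Z p.2)‖ ≤ 1 / ((l.2 : ℝ) + 1) := by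
    intro l
    obtain ⟨n, Z, hZ1, hZ2, hZ3⟩ := (exists_almost_intertwiner (H →L[ℂ] H) K H ρ
      (StarAlgHom.id ℂ (H →L[ℂ] H)) ζ hζ ξ (U : Filter ι) hlim hcyc l.1
      (1 / ((l.2 : ℝ) + 1)) (by positivity)).exists
    exact ⟨n, Z, hZ1, hZ2, fun p hp => (hZ3 p hp).1⟩
  choose n Z hZ1 hZ2 hZ3 using h1
  let π : (H →L[ℂ] H) →L[ℂ] H →L[ℂ] H := ContinuousLinearMap.id ℂ (H →L[ℂ] H)
  have hπ : ∀ a x, π a x = a x := fun a x => rfl
  have hZF : ∀ a k, Filter.Tendsto (fun l => ‖Z l (ρL a k) - π a (Z l k)‖)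
      (Filter.atTop : Filter L) (nhds 0) := by
    intro a k
    rw [Metric.tendsto_nhds]
    intro ε hε
    obtain ⟨N, hN⟩ := exists_nat_gt (1 / ε)
    filter_upwards [Filter.eventually_ge_atTop (({(a, k)}, N) : L)] with l hl
    have h3 := hZ3 l (a, k) (hl.1 (Finset.mem_singleton_self _))
    have h4 : (N : ℝ) ≤ l.2 := by exact_mod_cast hl.2
    have h7 : 1 / ((l.2 : ℝ) + 1) < ε := by
      rw [div_lt_iff₀ (by positivity)]
      rw [div_lt_iff₀ hε] at hN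
      nlinarith
    rw [dist_zero_right, norm_norm]
    exact lt_of_le_of_lt h3 h7
  obtain ⟨V, v1, v2, v3, αV, D, c, hαV, hD, hc1, hc2, hc3, hcD⟩ :=
    exists_V (H →L[ℂ] H) H K M π ρL (fun a b x => rfl) hρm αM j hj L Filter.atTop Z hZ1 hZF
  obtain ⟨Q, q1, q2, q3, β, q, s, t, hβ, hq, hs, hβt, hqt, hspan, hext, hbd⟩ :=
    J10.exists_module_tensor (H →L[ℂ] H) V αV hαV
      (J8.exists_proj_tensor (ℂ × (H →L[ℂ] H)) V)
  obtain ⟨Ψ, hΨ1, hΨ2, hΨ3⟩ := exists_psi H V Q αV c hc1 hc2 β q t hβt hqt hspan hext hbd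
  obtain ⟨D', S, hD', hS⟩ := hL V Q αV β hαV hβ q s hq hs D hD
  have hyw : ∀ f : H, Filter.Tendsto (fun l => ‖⟪f, ζ (n l)⟫_ℂ‖) (Filter.atTop : Filter L)
      (nhds 0) := by
    intro f
    by_cases hf : f = 0
    · subst hf
      simp
    · have hf' : ‖f‖ ≠ 0 := norm_ne_zero_iff.mpr hf
      have h2 := (hZF (rk H f f) ξ).mul_const ‖f‖⁻¹
      rw [zero_mul] at h2
      refine h2.congr fun l => ?_
      have h3 : ρ (rk H f f) ξ = 0 := (hIξ _).mp (hfr (rk_mem f f))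
      rw [hρL, h3, map_zero, hπ, hZ2, rk_apply, zero_sub, norm_neg, norm_smul, mul_assoc,
        mul_inv_cancel₀ hf', mul_one]
  refine core H I hfr ρ ξ hIξ V Q (Filter.atTop : Filter L) c hc1 hc3 β q Ψ hΨ1 hΨ2 hΨ3
    (fun l => ζ (n l)) (fun l => hζ _) hyw (fun b => D' b x₀) ?_ (S x₀) ?_
  · intro a b hb
    show D' (a * b) x₀ = β a (D' b x₀)
    rw [hD', hx₀ b hb, map_zero, add_zero]
  · intro b hb l
    show c l (q (D' b x₀)) = -(b (ζ (n l) + c l (S x₀)))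
    have h2 := hS b x₀
    rw [hx₀ b hb, map_zero, sub_zero] at h2
    have h3 : q (D' b x₀) = D b x₀ - αV b (S x₀) := by rw [h2]; abel
    rw [h3, map_sub, hcD, hc2, hjx₀, hρL, (hIξ b).mp hb, map_zero, hπ, hπ, hZ2, map_add]
    abel

theorem one_lt_ds (H : Type u) [NormedAddCommGroup H] [InnerProductSpace ℂ H]
    [CompleteSpace H] (hH : ¬ FiniteDimensional ℂ H) : 1 < ds (H →L[ℂ] H) := by
  obtain ⟨M, j1, j2, j3, αM, hM, hirr, hL⟩ := exists_irreducible H hH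
  have h1 : 1 < (mkL M αM hM).dh := by
    by_contra h
    exact hL (lifts_of_dh_le _ M αM hM (not_lt.mp h))
  exact lt_of_lt_of_le h1 (le_iSup₂ (f := fun (X : LMod (H →L[ℂ] H)) (_ : IsIrreducible X) => X.dh)
    (mkL M αM hM) hirr)

theorem one_lt_dg (H : Type u) [NormedAddCommGroup H] [InnerProductSpace ℂ H]
    [CompleteSpace H] (hH : ¬ FiniteDimensional ℂ H) : 1 < dg (H →L[ℂ] H) :=
  lt_of_lt_of_le (one_lt_ds H hH) (ds_le_dg _)

theorem one_lt_db (H : Type u) [NormedAddCommGroup H] [InnerProductSpace ℂ H]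
    [CompleteSpace H] (hH : ¬ FiniteDimensional ℂ H) : 1 < db (H →L[ℂ] H) := by
  obtain ⟨M, j1, j2, j3, αM, hM, hirr, hL⟩ := exists_irreducible H hH
  by_contra h
  exact hL (liftsM_of_lifts _ (lifts_of_db_le _ (not_lt.mp h)) M αM hM)

end Pool.Agent.H203R3.BH
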